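import Pool.Agent.N805.JG.Def

/-!
# Project JG (helper805): statements of the parts
-/

set_option autoImplicit false

open MeasureTheory Filter Topology

namespace Pool.Agent.N805.JG

/-! ### abstract part -/

/-- A1: products have bounded moments -/
def S_INT : Prop := ∀ {ι : Type} {L : Filter ι} {P : ι → Measure (ℕ → ℝ)}, Good L P →
  ∀ (I : Finset ℕ) (k : ℕ), (∀ j, Integrable (fun x : ℕ → ℝ => ∏ i ∈ I, (1 + |x i|) ^ k) (P j)) ∧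
    ∃ C : ℝ, ∀ᶠ j in L, ∫ x, ∏ i ∈ I, (1 + |x i|) ^ k ∂(P j) ≤ C

/-- A2: one-sided comparison of the products of `(T - x)⁺`, and of their differences -/
def S_ORD : Prop := ∀ {ι : Type} {L : Filter ι} {P Q : ι → Measure (ℕ → ℝ)}, Good L P → Good L Q →
  ∀ I : Finset ℕ, (∀ s : ℕ → ℝ, ∀ ε : ℝ, 0 < ε → ∀ᶠ j in L, F (P j) I s ≤ F (Q j) I s + ε) →
  ∀ T T' : ℕ → ℝ, (∀ i, 0 ≤ T i ∧ T i ≤ T' i) → ∀ ε : ℝ, 0 < ε → ∀ᶠ j in L,
    D P Q j (fun x => ∏ i ∈ I, max (T' i - x i) 0) - D P Q j (fun x => ∏ i ∈ I, max (T i - x i) 0) ≤ ε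

/-- A3: comparison for `r + 1` indices implies comparison for `r` indices -/
def S_MARG : Prop := ∀ {ι : Type} {L : Filter ι} {P Q : ι → Measure (ℕ → ℝ)}, Good L P → Good L Q →
  ∀ r : ℕ, Dom L P Q (r + 1) → Dom L P Q r

/-- A4: density of the combinations of the functions `(t - x)⁺` -/
def S_DENS : Prop := ∀ (g : ℝ → ℝ) (C : ℝ) (k : ℕ), Continuous g → (∀ x, 0 ≤ x → |g x| ≤ C * (1 + x) ^ k) →
  ∀ ε : ℝ, 0 < ε → ∃ (n : ℕ) (c t : Fin n → ℝ), (∀ b, 0 ≤ t b) ∧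
    ∀ x, 0 ≤ x → |g x - ∑ b, c b * max (t b - x) 0| ≤ ε * (1 + x) ^ (k + 1)

/-- A5: from the functions `∏ (T - x)⁺` to all products of continuous functions of polynomial growth -/
def S_PROD : Prop := S_DENS → S_INT → ∀ {ι : Type} {L : Filter ι} {P Q : ι → Measure (ℕ → ℝ)},
  Good L P → Good L Q → ∀ I : Finset ℕ,
  (∀ T : ℕ → ℝ, (∀ i, 0 ≤ T i) → Tendsto (fun j => D P Q j (fun x => ∏ i ∈ I, max (T i - x i) 0)) L (𝓝 0)) →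
  ∀ (g : ℕ → ℝ → ℝ) (C : ℝ) (k : ℕ), (∀ i, Continuous (g i)) → (∀ i x, 0 ≤ x → |g i x| ≤ C * (1 + x) ^ k) →
    Tendsto (fun j => D P Q j (fun x => ∏ i ∈ I, g i (x i))) L (𝓝 0)

/-- all mixed moments in fewer than `r` variables agree asymptotically -/
def Low {ι : Type} (L : Filter ι) (P Q : ι → Measure (ℕ → ℝ)) (r : ℕ) : Prop :=
  ∀ I : Finset ℕ, I.card < r → ∀ a : ℕ → ℕ, Tendsto (fun j => D P Q j (fun x => ∏ i ∈ I, x i ^ a i)) L (𝓝 0)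

/-- A6: the sign of the difference of the mixed first moments -/
def S_SIGN : Prop := S_INT → ∀ {ι : Type} {L : Filter ι} {P Q : ι → Measure (ℕ → ℝ)}, Good L P → Good L Q →
  ∀ r : ℕ, 1 ≤ r → Low L P Q r → ∀ I : Finset ℕ, I.card = r →
  (∀ T : ℕ → ℝ, (∀ i, 0 ≤ T i) → ∀ ε : ℝ, 0 < ε → ∀ᶠ j in L,
    D P Q j (fun x => ∏ i ∈ I, max (T i - x i) 0) ≤ ε) →
  ∀ ε : ℝ, 0 < ε → ∀ᶠ j in L, (-1) ^ r * D P Q j (fun x => ∏ i ∈ I, x i) ≤ ε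

/-- A7: the sum rule: if all the differences have (asymptotically) one sign they vanish -/
def S_SUM : Prop := S_INT → ∀ {ι : Type} {L : Filter ι} {P Q : ι → Measure (ℕ → ℝ)}, Good L P → Good L Q →
  ∀ r : ℕ, 1 ≤ r → Low L P Q r →
  (∀ I : Finset ℕ, I.card = r → ∀ ε : ℝ, 0 < ε → ∀ᶠ j in L, (-1) ^ r * D P Q j (fun x => ∏ i ∈ I, x i) ≤ ε) →
  ∀ I : Finset ℕ, I.card = r → Tendsto (fun j => D P Q j (fun x => ∏ i ∈ I, x i)) L (𝓝 0)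

/-- A8: back to the functions `∏ (T - x)⁺` -/
def S_BACK : Prop := S_INT → ∀ {ι : Type} {L : Filter ι} {P Q : ι → Measure (ℕ → ℝ)}, Good L P → Good L Q →
  ∀ r : ℕ, 1 ≤ r → Low L P Q r → ∀ I : Finset ℕ, I.card = r →
  (∀ T T' : ℕ → ℝ, (∀ i, 0 ≤ T i ∧ T i ≤ T' i) → ∀ ε : ℝ, 0 < ε → ∀ᶠ j in L,
    D P Q j (fun x => ∏ i ∈ I, max (T' i - x i) 0) - D P Q j (fun x => ∏ i ∈ I, max (T i - x i) 0) ≤ ε) →
  Tendsto (fun j => D P Q j (fun x => ∏ i ∈ I, x i)) L (𝓝 0) →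
  ∀ T : ℕ → ℝ, (∀ i, 0 ≤ T i) → Tendsto (fun j => D P Q j (fun x => ∏ i ∈ I, max (T i - x i) 0)) L (𝓝 0)

/-- A9: from `∏ (T - x)⁺` to the orthants, with a small enlargement -/
def S_SYM : Prop := ∀ {ι : Type} {L : Filter ι} {P Q : ι → Measure (ℕ → ℝ)}, Good L P → Good L Q →
  ∀ I : Finset ℕ,
  (∀ T : ℕ → ℝ, (∀ i, 0 ≤ T i) → Tendsto (fun j => D P Q j (fun x => ∏ i ∈ I, max (T i - x i) 0)) L (𝓝 0)) →
  ∀ (s : ℕ → ℝ) (h ε : ℝ), 0 < h → 0 < ε → ∀ᶠ j in L, F (Q j) I s ≤ F (P j) I (fun i => s i + h) + ε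

/-! ### random unitary matrices -/

/-- C0: order statistics are measurable -/
def S_MEAS : Prop := ∀ (M n : ℕ), Measurable fun θ : Fin M → ℝ => pt θ n

/-- C1: Andreief's identity and the eigenvalues -/
def S_EIG : Prop := ∀ M : ℕ, 1 ≤ M → ∀ U : Set ℝ, MeasurableSet U → U ⊆ Set.Ico 0 1 →
  ∃ lam : Fin M → ℝ, (∀ i, 0 ≤ lam i ∧ lam i ≤ 1) ∧ ∑ i, lam i = M * volume.real U ∧
    ∑ i, lam i * (1 - lam i) = V M U ∧
    ∀ z : ℝ, 0 < z → Integrable (fun θ : Fin M → ℝ => z ^ num θ U) (cue M) ∧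
      ∫ θ, z ^ num θ U ∂(cue M) = ∏ i, (1 + (z - 1) * lam i)

/-- C1': total mass one -/
def S_PROB : Prop := S_EIG → ∀ M : ℕ, IsProbabilityMeasure (cue M)

/-- C2: the variance of the number of points in an arc -/
def S_VAR : Prop := ∀ M : ℕ, 1 ≤ M → ∀ a h : ℝ, 0 ≤ h → h ≤ 1 →
  V M {t : ℝ | t ∈ Set.Ico (0 : ℝ) 1 ∧ Int.fract (t - a) < h} ≤ 3 + Real.log (1 + M * h)

/-- C3: deviations of the number of points in an arc -/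
def S_DEV : Prop := S_EIG → S_PROB → S_VAR → ∀ M : ℕ, 1 ≤ M → ∀ t u y : ℝ, 0 ≤ u → u ≤ M → 0 ≤ y →
  (cue M).real {θ | y ≤ |(cnt θ t u : ℝ) - u|} ≤ 50 * (1 + u) * Real.exp (-y)

/-- C4: pairs of points in a set -/
def S_PAIR : Prop := S_EIG → S_PROB → ∀ M : ℕ, 1 ≤ M → ∀ U : Set ℝ, MeasurableSet U → U ⊆ Set.Ico 0 1 →
  Integrable (fun θ : Fin M → ℝ => (num θ U : ℝ) * (num θ U - 1)) (cue M) ∧
    ∫ θ, (num θ U : ℝ) * (num θ U - 1) ∂(cue M) ≤ (M * volume.real U) ^ 2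

/-- C5: long and short blocks in terms of the numbers of points in arcs (deterministic) -/
def S_DET : Prop := ∀ (M m : ℕ) (y : ℕ) (θ : Fin M → ℝ), (∀ i, θ i ∈ Set.Ico (0 : ℝ) 1) →
  1 ≤ m → m < M → 1 ≤ y →
  (((Finset.range M).filter fun a => (y : ℝ) < |pt θ (a + m) - pt θ a - m|).card : ℝ) ≤
    ∑ t ∈ Finset.range M, (cnt θ t 1 : ℝ) *
      ((if (m : ℝ) + y - 1 ≤ M ∧ (y : ℝ) ≤ |(cnt θ (t + 1) (m + y - 1) : ℝ) - (m + y - 1)| then 1 else 0) +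
       (if (y : ℝ) ≤ m ∧ (y : ℝ) ≤ |(cnt θ t (m - y + 1) : ℝ) - (m - y + 1)| then 1 else 0))

/-- C6: the tail of the block sums -/
def S_TAIL : Prop := S_MEAS → S_PROB → S_DEV → S_PAIR → S_DET → ∀ (M m y : ℕ), 1 ≤ m → m < M → 1 ≤ y →
  (Q M).real {x | (y : ℝ) < |∑ i ∈ Finset.range m, x i - m|} ≤ 100 * (1 + m + y) * Real.exp (-(y : ℝ) / 2)

/-- C7: moments of the block sums -/
def S_BLK : Prop := S_MEAS → S_PROB → S_TAIL → ∀ k : ℕ, ∃ C : ℝ, ∀ (M m : ℕ), 1 ≤ m → m < M →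
  Integrable (fun x : ℕ → ℝ => |∑ i ∈ Finset.range m, (x i - 1)| ^ k) (Q M) ∧
  ∫ x, |∑ i ∈ Finset.range m, (x i - 1)| ^ k ∂(Q M) ≤ C * (1 + Real.log m) ^ k

/-- C8: the law of the gap has a bounded density, up to a constant -/
def S_EQC : Prop := S_MEAS → S_PROB → S_PAIR → ∀ (M : ℕ), 2 ≤ M → ∀ (i : ℕ) (s h : ℝ), 0 < h → h ≤ 1 →
  (Q M).real {x | s < x i ∧ x i ≤ s + h} ≤ 20 * h

/-- C9: the laws of the gaps of random unitary matrices are good -/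
def S_GOOD : Prop := S_MEAS → S_PROB → S_BLK → Good atTop fun M : ℕ => Q (M + 2)

end Pool.Agent.N805.JG
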