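import Pool.Agent.N805.JG.Main
import Pool.Agent.N765.JG.INT
import Pool.Agent.N887.JG.ORD
import Pool.Agent.N136.JG.MARG
import Pool.Agent.N951.JG.DENS
import Pool.Agent.N803.JG.PROD
import Pool.Agent.N55.JG.SIGN
import Pool.Agent.N564.JG.SUM
import Pool.Agent.N342.JG.BACK
import Pool.Agent.N475.JG.SYM
import Pool.Agent.N946.JG.MEAS
import Pool.Agent.N459.JG.EIG
import Pool.Agent.N438.JG.PROB
import Pool.Agent.N106.JG.DEV
import Pool.Agent.N106.JG.TAIL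
import Pool.Agent.N921.JG.PAIR
import Pool.Agent.N684.JG.DET
import Pool.Agent.N862.JG.BLK
import Pool.Agent.N424.JG.EQC
import Pool.Agent.N424.JG.GOOD

/-!
# Project JG (helper805): the parts together
-/

set_option autoImplicit false

open MeasureTheory Filter Topology

namespace Pool.Agent.N805.JG

variable {ι : Type} {L : Filter ι} {P Q' : ι → Measure (ℕ → ℝ)}

theorem comp (hP : Good L P) (hQ : Good L Q') {r : ℕ} (hD : Dom L P Q' r) :
    ∀ I : Finset ℕ, I.card ≤ r → ∀ (s : ℕ → ℝ) (h ε : ℝ), 0 < h → 0 < ε →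
      ∀ᶠ j in L, F (Q' j) I s ≤ F (P j) I (fun i => s i + h) + ε :=
  comparison N765.JG.INT N887.JG.ORD N136.JG.MARG N951.JG.DENS N803.JG.PROD N55.JG.SIGN N564.JG.SUM
    N342.JG.BACK N475.JG.SYM hP hQ hD

theorem good_Q (hV : S_VAR) : Good atTop fun M : ℕ => Q (M + 2) :=
  N424.JG.GOOD N459.JG.EIG (N106.JG.TAIL N459.JG.EIG hV) N946.JG.MEAS N438.JG.PROB
    (N862.JG.BLK N459.JG.EIG N106.JG.DEV N921.JG.PAIR N684.JG.DET)

theorem eqc (M : ℕ) (hM : 2 ≤ M) (i : ℕ) (s h : ℝ) (h0 : 0 < h) (h1 : h ≤ 1) :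
    (Q M).real {x | s < x i ∧ x i ≤ s + h} ≤ 20 * h :=
  N424.JG.EQC N459.JG.EIG N946.JG.MEAS N438.JG.PROB N921.JG.PAIR M hM i s h h0 h1

/-- the orthant probabilities of CUE are equicontinuous -/
theorem F_cont (M : ℕ) (hM : 2 ≤ M) [IsProbabilityMeasure (Q M)] (I : Finset ℕ) (s : ℕ → ℝ) (h : ℝ)
    (h0 : 0 < h) (h1 : h ≤ 1) :
    F (Q M) I (fun i => s i + h) ≤ F (Q M) I s + I.card * (20 * h) := by
  unfold F
  have hsub : {x : ℕ → ℝ | ∀ i ∈ I, x i ≤ s i + h} ⊆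
      {x | ∀ i ∈ I, x i ≤ s i} ∪ ⋃ i ∈ I, {x | s i < x i ∧ x i ≤ s i + h} := by
    intro x hx
    by_cases hc : ∀ i ∈ I, x i ≤ s i
    · exact Or.inl hc
    · right
      push Not at hc
      obtain ⟨i, hi, hlt⟩ := hc
      simp only [Set.mem_iUnion, Set.mem_setOf_eq]
      exact ⟨i, hi, hlt, hx i hi⟩
  calc (Q M).real {x : ℕ → ℝ | ∀ i ∈ I, x i ≤ s i + h}
      ≤ (Q M).real ({x | ∀ i ∈ I, x i ≤ s i} ∪ ⋃ i ∈ I, {x | s i < x i ∧ x i ≤ s i + h}) :=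
        measureReal_mono hsub
    _ ≤ (Q M).real {x | ∀ i ∈ I, x i ≤ s i} + (Q M).real (⋃ i ∈ I, {x | s i < x i ∧ x i ≤ s i + h}) :=
        measureReal_union_le _ _
    _ ≤ (Q M).real {x | ∀ i ∈ I, x i ≤ s i} + ∑ i ∈ I, (Q M).real {x | s i < x i ∧ x i ≤ s i + h} := by
        gcongr
        exact measureReal_biUnion_finset_le _ _
    _ ≤ _ := by
        gcongr
        refine (Finset.sum_le_sum fun i _ => eqc M hM i (s i) h h0 h1).trans ?_
        rw [Finset.sum_const, nsmul_eq_mul]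

end Pool.Agent.N805.JG
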