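import Pool.Agent.N805.JG.Stm

/-!
# Project JG (helper805): upper orthants
-/

set_option autoImplicit false

open MeasureTheory Filter Topology

namespace Pool.Agent.N805.JG

/-- the probability of the upper orthant -/
noncomputable def FU (μ : Measure (ℕ → ℝ)) (I : Finset ℕ) (s : ℕ → ℝ) : ℝ :=
  μ.real {x | ∀ i ∈ I, s i < x i}

/-- B1: one-sided comparison of the differences of the products of `(x - T)⁺` -/
def S_ORDU : Prop := S_INT → ∀ {ι : Type} {L : Filter ι} {P Q : ι → Measure (ℕ → ℝ)}, Good L P → Good L Q →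
  ∀ I : Finset ℕ, (∀ s : ℕ → ℝ, ∀ ε : ℝ, 0 < ε → ∀ᶠ j in L, FU (P j) I s ≤ FU (Q j) I s + ε) →
  ∀ T T' : ℕ → ℝ, (∀ i, 0 ≤ T i ∧ T i ≤ T' i) → ∀ ε : ℝ, 0 < ε → ∀ᶠ j in L,
    D P Q j (fun x => ∏ i ∈ I, max (x i - T i) 0) - D P Q j (fun x => ∏ i ∈ I, max (x i - T' i) 0) ≤ ε

/-- B2: one-sided comparison of the products of `(x - T)⁺` -/
def S_ORDV : Prop := S_INT → ∀ {ι : Type} {L : Filter ι} {P Q : ι → Measure (ℕ → ℝ)}, Good L P → Good L Q →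
  ∀ I : Finset ℕ, (∀ s : ℕ → ℝ, ∀ ε : ℝ, 0 < ε → ∀ᶠ j in L, FU (P j) I s ≤ FU (Q j) I s + ε) →
  ∀ T : ℕ → ℝ, (∀ i, 0 ≤ T i) → ∀ ε : ℝ, 0 < ε → ∀ᶠ j in L,
    D P Q j (fun x => ∏ i ∈ I, max (x i - T i) 0) ≤ ε

end Pool.Agent.N805.JG
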