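import Pool.Agent.N805.JG.All
import Pool.Agent.N805.JG.StmU

/-!
# Project JG (helper805): upper orthants, assembly
-/

set_option autoImplicit false

open MeasureTheory Filter Topology

namespace Pool.Agent.N805.JG

variable {ι : Type} {L : Filter ι} {P Q' : ι → Measure (ℕ → ℝ)}

/-- one-sided comparison of upper orthants -/
def DomU {ι : Type} (L : Filter ι) (P Q : ι → Measure (ℕ → ℝ)) (r : ℕ) : Prop :=
  ∀ I : Finset ℕ, I.card = r → ∀ s : ℕ → ℝ, ∀ ε : ℝ, 0 < ε → ∀ᶠ j in L, FU (P j) I s ≤ FU (Q j) I s + ε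

/-- all expectations of products of less than `r` functions of polynomial growth agree -/
def LowG {ι : Type} (L : Filter ι) (P Q : ι → Measure (ℕ → ℝ)) (r : ℕ) : Prop :=
  ∀ I : Finset ℕ, I.card < r → ∀ (g : ℕ → ℝ → ℝ) (C : ℝ) (k : ℕ), (∀ i, Continuous (g i)) →
    (∀ i x, 0 ≤ x → |g i x| ≤ C * (1 + x) ^ k) →
    Tendsto (fun j => D P Q j (fun x => ∏ i ∈ I, g i (x i))) L (𝓝 0)

lemma LowG.low {r : ℕ} (h : LowG L P Q' r) : Low L P Q' r := by
  intro I hI a
  have h1 := h I hI (fun i x => x ^ (if i ∈ I then a i else 0)) 1 (∑ i ∈ I, a i)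
    (fun i => by fun_prop) (fun i x hx => by
      rw [one_mul, abs_of_nonneg (pow_nonneg hx _)]
      refine (pow_le_pow_left₀ hx (show x ≤ 1 + x by linarith) _).trans ?_
      refine pow_le_pow_right₀ (by linarith) ?_
      split_ifs with hi
      · exact Finset.single_le_sum (f := a) (fun _ _ => Nat.zero_le _) hi
      · exact Nat.zero_le _)
  refine h1.congr fun j => ?_
  congr 1
  funext x
  refine Finset.prod_congr rfl fun i hi => ?_
  rw [if_pos hi]

lemma FU_insert {μ : Measure (ℕ → ℝ)} (i0 : ℕ) (h0 : ∀ᵐ x ∂μ, 0 ≤ x i0) (I : Finset ℕ)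
    (hi0 : i0 ∉ I) (s : ℕ → ℝ) :
    FU μ (insert i0 I) (Function.update s i0 (-1)) = FU μ I s := by
  unfold FU
  apply measureReal_congr
  filter_upwards [h0] with x hx
  apply propext
  constructor
  · intro h i hi
    have h1 := h i (Finset.mem_insert_of_mem hi)
    rwa [Function.update_of_ne (ne_of_mem_of_not_mem hi hi0)] at h1
  · intro h i hi
    rcases Finset.mem_insert.1 hi with rfl | hi
    · rw [Function.update_self]; linarith
    · rw [Function.update_of_ne (ne_of_mem_of_not_mem hi hi0)]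
      exact h i hi

lemma domU_le (hP : Good L P) (hQ : Good L Q') {r : ℕ} (hD : DomU L P Q' r) :
    ∀ k : ℕ, k ≤ r → DomU L P Q' k := by
  have step : ∀ k : ℕ, DomU L P Q' (k + 1) → DomU L P Q' k := by
    intro k h I hI s ε hε
    obtain ⟨i0, hi0⟩ := Infinite.exists_notMem_finset I
    have h1 := h (insert i0 I) (by rw [Finset.card_insert_of_notMem hi0, hI])
      (Function.update s i0 (-1)) ε hε
    filter_upwards [h1] with j hj
    rwa [FU_insert i0 (hP.nn j i0) I hi0, FU_insert i0 (hQ.nn j i0) I hi0] at hj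
  have h : ∀ d k : ℕ, k + d = r → DomU L P Q' k := by
    intro d
    induction d with
    | zero => intro k hk; rw [add_zero] at hk; rw [hk]; exact hD
    | succ d ih => intro k hk; exact step k (ih (k + 1) (by omega))
  intro k hk
  exact h (r - k) k (by omega)

lemma D_congr (hP : Good L P) (hQ : Good L Q') (j : ι) {f g : (ℕ → ℝ) → ℝ}
    (h : ∀ x : ℕ → ℝ, (∀ i, 0 ≤ x i) → f x = g x) : D P Q' j f = D P Q' j g := by
  unfold D
  rw [integral_congr_ae (μ := P j) (g := g), integral_congr_ae (μ := Q' j) (g := g)]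
  · filter_upwards [ae_all_iff.2 (hQ.nn j)] with x hx using h x hx
  · filter_upwards [ae_all_iff.2 (hP.nn j)] with x hx using h x hx

lemma D_swap (j : ι) (f : (ℕ → ℝ) → ℝ) : D Q' P j f = - D P Q' j f := by
  unfold D; ring

lemma Low.swap {r : ℕ} (h : Low L P Q' r) : Low L Q' P r := by
  intro I hI a
  simp_rw [D_swap (P := P) (Q' := Q')]
  simpa using (h I hI a).neg

lemma D_sum {α : Type} (s : Finset α) (c : α → ℝ) (f : α → (ℕ → ℝ) → ℝ) (j : ι)
    (hf : ∀ a ∈ s, Integrable (f a) (P j)) (hf' : ∀ a ∈ s, Integrable (f a) (Q' j)) :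
    D P Q' j (fun x => ∑ a ∈ s, c a * f a x) = ∑ a ∈ s, c a * D P Q' j (f a) := by
  unfold D
  rw [integral_finset_sum _ (fun a ha => (hf a ha).const_mul _),
    integral_finset_sum _ (fun a ha => (hf' a ha).const_mul _), ← Finset.sum_sub_distrib]
  refine Finset.sum_congr rfl fun a _ => ?_
  rw [integral_const_mul, integral_const_mul]
  ring

/-- growth of the elementary functions -/
lemma gr (T x : ℝ) (hT : 0 ≤ T) (hx : 0 ≤ x) : |max (x - T) 0| ≤ 1 * (1 + x) ^ 1 := by
  rw [abs_of_nonneg (le_max_right _ _), one_mul, pow_one]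
  exact max_le (by linarith) (by linarith)

lemma int_prod (hP : Good L P) (I : Finset ℕ) (T : ℕ → ℝ) (hT : ∀ i, 0 ≤ T i) (j : ι) :
    Integrable (fun x : ℕ → ℝ => ∏ i ∈ I, max (x i - T i) 0) (P j) :=
  N803.JG.intg N765.JG.INT hP I (fun i x => max (x - T i) 0) (fun _ => 1) 1
    (fun i => by fun_prop) (fun i _ x hx => gr (T i) x (hT i) hx) j

/-- from `∏ (x - T)⁺` to `∏ ((x - T)⁺ - x)` -/
lemma tendsto_a (hP : Good L P) (hQ : Good L Q') (I : Finset ℕ)
    (h : ∀ T : ℕ → ℝ, (∀ i, 0 ≤ T i) →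
      Tendsto (fun j => D P Q' j (fun x => ∏ i ∈ I, max (x i - T i) 0)) L (𝓝 0))
    (T : ℕ → ℝ) (hT : ∀ i, 0 ≤ T i) :
    Tendsto (fun j => D P Q' j (fun x => ∏ i ∈ I, (max (x i - T i) 0 - max (x i - 0) 0))) L (𝓝 0) := by
  classical
  have key : ∀ j, D P Q' j (fun x => ∏ i ∈ I, (max (x i - T i) 0 - max (x i - 0) 0)) =
      ∑ K ∈ I.powerset, (-1) ^ (I \ K).card *
        D P Q' j (fun x => ∏ i ∈ I, max (x i - (if i ∈ K then T i else 0)) 0) := by
    intro j
    rw [← D_sum I.powerset (fun K => (-1) ^ (I \ K).card)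
      (fun K x => ∏ i ∈ I, max (x i - (if i ∈ K then T i else 0)) 0) j
      (fun K _ => int_prod hP I (fun i => if i ∈ K then T i else 0)
        (fun i => by split_ifs; exacts [hT i, le_rfl]) j)
      (fun K _ => int_prod hQ I (fun i => if i ∈ K then T i else 0)
        (fun i => by split_ifs; exacts [hT i, le_rfl]) j)]
    congr 1
    funext x
    simp_rw [sub_eq_add_neg (max (x _ - T _) 0)]
    rw [Finset.prod_add]
    refine Finset.sum_congr rfl fun K hK => ?_
    have hKI := Finset.mem_powerset.1 hK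
    rw [Finset.prod_neg, ← mul_assoc, mul_comm (∏ i ∈ K, max (x i - T i) 0), mul_assoc]
    congr 1
    rw [← Finset.prod_sdiff hKI, mul_comm]
    congr 1
    · refine Finset.prod_congr rfl fun i hi => ?_
      rw [if_neg (Finset.mem_sdiff.1 hi).2]
    · refine Finset.prod_congr rfl fun i hi => ?_
      rw [if_pos hi]
  have hh : Tendsto (fun j => ∑ K ∈ I.powerset, (-1 : ℝ) ^ (I \ K).card *
      D P Q' j (fun x => ∏ i ∈ I, max (x i - (if i ∈ K then T i else 0)) 0)) L
      (𝓝 (∑ K ∈ I.powerset, (-1 : ℝ) ^ (I \ K).card * 0)) :=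
    tendsto_finset_sum _ fun K _ => (h (fun i => if i ∈ K then T i else 0)
      (fun i => by split_ifs; exacts [hT i, le_rfl])).const_mul _
  rw [show (∑ K ∈ I.powerset, (-1 : ℝ) ^ (I \ K).card * 0) = 0 by simp] at hh
  exact hh.congr fun j => (key j).symm

/-- from `∏ (x - T)⁺` to `∏ (T - x)⁺` -/
lemma conv (hP : Good L P) (hQ : Good L Q') {k : ℕ} (hlow : LowG L P Q' k) (I : Finset ℕ)
    (hI : I.card = k)
    (h : ∀ T : ℕ → ℝ, (∀ i, 0 ≤ T i) →
      Tendsto (fun j => D P Q' j (fun x => ∏ i ∈ I, max (x i - T i) 0)) L (𝓝 0))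
    (T : ℕ → ℝ) (hT : ∀ i, 0 ≤ T i) :
    Tendsto (fun j => D P Q' j (fun x => ∏ i ∈ I, max (T i - x i) 0)) L (𝓝 0) := by
  classical
  have hgr : ∀ (i : ℕ) (x : ℝ), 0 ≤ x → |max (x - T i) 0 - max (x - 0) 0| ≤ 2 * (1 + x) ^ 1 := by
    intro i x hx
    have h1 := gr (T i) x (hT i) hx
    have h2 := gr 0 x le_rfl hx
    refine (abs_sub _ _).trans ?_
    linarith
  have hint : ∀ {P : ι → Measure (ℕ → ℝ)}, Good L P → ∀ (J : Finset ℕ) (j : ι),
      Integrable (fun x : ℕ → ℝ => ∏ i ∈ J, (max (x i - T i) 0 - max (x i - 0) 0)) (P j) := by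
    intro P hP J j
    exact N803.JG.intg N765.JG.INT hP J (fun i x => max (x - T i) 0 - max (x - 0) 0) (fun _ => 2) 1
      (fun i => by fun_prop) (fun i _ x hx => hgr i x hx) j
  have key : ∀ j, D P Q' j (fun x => ∏ i ∈ I, max (T i - x i) 0) =
      ∑ J ∈ I.powerset, (∏ i ∈ I \ J, T i) *
        D P Q' j (fun x => ∏ i ∈ J, (max (x i - T i) 0 - max (x i - 0) 0)) := by
    intro j
    rw [← D_sum I.powerset (fun J => ∏ i ∈ I \ J, T i)
      (fun J x => ∏ i ∈ J, (max (x i - T i) 0 - max (x i - 0) 0)) j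
      (fun J _ => hint hP J j) (fun J _ => hint hQ J j)]
    apply D_congr hP hQ
    intro x hx
    have e : ∀ i ∈ I, max (T i - x i) 0 = (max (x i - T i) 0 - max (x i - 0) 0) + T i := by
      intro i _
      rw [sub_zero, max_eq_left (hx i)]
      rcases le_total (T i) (x i) with h1 | h1
      · rw [max_eq_right (by linarith), max_eq_left (by linarith)]; ring
      · rw [max_eq_left (by linarith), max_eq_right (by linarith)]; ring
    rw [Finset.prod_congr rfl e, Finset.prod_add]
    refine Finset.sum_congr rfl fun J _ => ?_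
    ring
  have hh : Tendsto (fun j => ∑ J ∈ I.powerset, (∏ i ∈ I \ J, T i) *
      D P Q' j (fun x => ∏ i ∈ J, (max (x i - T i) 0 - max (x i - 0) 0))) L
      (𝓝 (∑ J ∈ I.powerset, (∏ i ∈ I \ J, T i) * 0)) := by
    refine tendsto_finset_sum _ fun J hJ => Tendsto.const_mul _ ?_
    have hJI := Finset.mem_powerset.1 hJ
    rcases eq_or_ne J I with rfl | hne
    · exact tendsto_a hP hQ J h T hT
    · have hcard : J.card < k := by
        rw [← hI]
        exact Finset.card_lt_card (Finset.ssubset_iff_subset_ne.2 ⟨hJI, hne⟩)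
      exact hlow J hcard (fun i x => max (x - T i) 0 - max (x - 0) 0) 2 1 (fun i => by fun_prop) hgr
  rw [show (∑ J ∈ I.powerset, (∏ i ∈ I \ J, T i) * 0) = 0 by simp] at hh
  exact hh.congr fun j => (key j).symm

lemma coreU (hU : S_ORDU) (hV : S_ORDV) (hP : Good L P) (hQ : Good L Q') {k : ℕ} (hk : 1 ≤ k)
    (hD : DomU L P Q' k) (hlow : LowG L P Q' k) :
    ∀ I : Finset ℕ, I.card = k → ∀ T : ℕ → ℝ, (∀ i, 0 ≤ T i) →
      Tendsto (fun j => D P Q' j (fun x => ∏ i ∈ I, max (x i - T i) 0)) L (𝓝 0) := by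
  have e0 : ∀ (I : Finset ℕ) (j : ι), D P Q' j (fun x => ∏ i ∈ I, max (x i - (0 : ℝ)) 0) =
      D P Q' j (fun x => ∏ i ∈ I, x i) := by
    intro I j
    apply D_congr hP hQ
    intro x hx
    refine Finset.prod_congr rfl fun i _ => ?_
    rw [sub_zero, max_eq_left (hx i)]
  have hup : ∀ I : Finset ℕ, I.card = k → ∀ ε : ℝ, 0 < ε → ∀ᶠ j in L,
      D P Q' j (fun x => ∏ i ∈ I, x i) ≤ ε := by
    intro I hI ε hε
    filter_upwards [hV N765.JG.INT hP hQ I (hD I hI) (fun _ => 0) (fun _ => le_rfl) ε hε] with j hj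
    rwa [e0] at hj
  have hzero : ∀ I : Finset ℕ, I.card = k →
      Tendsto (fun j => D P Q' j (fun x => ∏ i ∈ I, x i)) L (𝓝 0) := by
    rcases Nat.even_or_odd k with hev | hodd
    · refine N564.JG.SUM N765.JG.INT hP hQ k hk hlow.low ?_
      intro I hI ε hε
      filter_upwards [hup I hI ε hε] with j hj
      rwa [hev.neg_one_pow, one_mul]
    · intro I hI
      have h1 := N564.JG.SUM N765.JG.INT hQ hP k hk hlow.low.swap (by
        intro I hI ε hε
        filter_upwards [hup I hI ε hε] with j hj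
        rw [hodd.neg_one_pow, D_swap (P := P) (Q' := Q')]
        linarith) I hI
      simp_rw [D_swap (P := P) (Q' := Q')] at h1
      simpa using h1.neg
  intro I hI T hT
  rw [Metric.tendsto_nhds]
  intro ε hε
  have h1 := hV N765.JG.INT hP hQ I (hD I hI) T hT (ε / 3) (by linarith)
  have h2 := hU N765.JG.INT hP hQ I (hD I hI) (fun _ => 0) T (fun i => ⟨le_rfl, hT i⟩) (ε / 3)
    (by linarith)
  have h3 := Metric.tendsto_nhds.1 (hzero I hI) (ε / 3) (by linarith)
  filter_upwards [h1, h2, h3] with j h1 h2 h3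
  rw [e0] at h2
  rw [Real.dist_eq, sub_zero, abs_lt] at h3 ⊢
  constructor <;> linarith [h3.1, h3.2]

lemma lowG_one (hP : Good L P) (hQ : Good L Q') : LowG L P Q' 1 := by
  intro I hI g C k _ _
  have : I = ∅ := by
    rw [← Finset.card_eq_zero]; omega
  subst this
  have e : (fun j => D P Q' j (fun x => ∏ i ∈ (∅ : Finset ℕ), g i (x i))) = fun _ => 0 := by
    funext j
    have := hP.prob j
    have := hQ.prob j
    unfold D
    simp
  rw [e]
  exact tendsto_const_nhds

/-- all the products `∏ (T - x)⁺` of at most `r` factors agree -/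
theorem eqU (hU : S_ORDU) (hV : S_ORDV) (hP : Good L P) (hQ : Good L Q') {r : ℕ}
    (hD : DomU L P Q' r) :
    ∀ I : Finset ℕ, I.card ≤ r → ∀ T : ℕ → ℝ, (∀ i, 0 ≤ T i) →
      Tendsto (fun j => D P Q' j (fun x => ∏ i ∈ I, max (T i - x i) 0)) L (𝓝 0) := by
  have hDk := domU_le hP hQ hD
  have hstep : ∀ k : ℕ, 1 ≤ k → k ≤ r + 1 → LowG L P Q' k := by
    intro k hk
    induction k, hk using Nat.le_induction with
    | base => intro _; exact lowG_one hP hQ
    | succ k hk ih =>
      intro hkr I hI g C n hg hC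
      have hlow := ih (by omega)
      rcases Nat.lt_or_ge I.card k with h | h
      · exact hlow I h g C n hg hC
      · have hIk : I.card = k := by omega
        exact N803.JG.PROD N951.JG.DENS N765.JG.INT hP hQ I
          (conv hP hQ hlow I hIk (coreU hU hV hP hQ hk (hDk k (by omega)) hlow I hIk)) g C n hg hC
  intro I hI T hT
  have h1 := hstep (r + 1) (by omega) le_rfl I (by omega)
    (fun i x => max ((if i ∈ I then T i else 0) - x) 0) (∑ i ∈ I, T i) 0 (fun i => by fun_prop)
    (fun i x hx => by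
      rw [pow_zero, mul_one, abs_of_nonneg (le_max_right _ _)]
      have hs : 0 ≤ ∑ i ∈ I, T i := Finset.sum_nonneg fun i _ => hT i
      refine max_le ?_ hs
      split_ifs with hi
      · have := Finset.single_le_sum (f := T) (fun i _ => hT i) hi
        linarith
      · linarith)
  refine h1.congr fun j => ?_
  congr 1
  funext x
  refine Finset.prod_congr rfl fun i hi => ?_
  rw [if_pos hi]

end Pool.Agent.N805.JG
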