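import Mathlib

/-!
# Project JG (helper805): joint laws of gaps, one half suffices.  Definitions.
-/

set_option autoImplicit false

open MeasureTheory Filter Topology

namespace Pool.Agent.N805.JG

/-- the probability of the lower orthant -/
noncomputable def F (μ : Measure (ℕ → ℝ)) (I : Finset ℕ) (s : ℕ → ℝ) : ℝ :=
  μ.real {x | ∀ i ∈ I, x i ≤ s i}

/-- families of laws of nonnegative sequences, asymptotically stationary, with bounded moments and
small moments of the block sums -/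
structure Good {ι : Type} (L : Filter ι) (P : ι → Measure (ℕ → ℝ)) : Prop where
  prob : ∀ j, IsProbabilityMeasure (P j)
  nn : ∀ j i, ∀ᵐ x ∂(P j), 0 ≤ x i
  int : ∀ j i k, Integrable (fun x : ℕ → ℝ => x i ^ k) (P j)
  mom : ∀ i k, ∃ C : ℝ, ∀ᶠ j in L, ∫ x, x i ^ k ∂(P j) ≤ C
  stat : ∀ I : Finset ℕ, Tendsto
    (fun j => ∫ x, ∏ i ∈ I, x (i + 1) ∂(P j) - ∫ x, ∏ i ∈ I, x i ∂(P j)) L (𝓝 0)
  blk : ∀ (k : ℕ) (ε : ℝ), 0 < ε → ∃ m₀ : ℕ, ∀ m : ℕ, m₀ ≤ m → ∀ᶠ j in L,
    |∫ x, (∑ i ∈ Finset.range m, (x i - 1)) ^ k ∂(P j)| ≤ ε * m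

/-- difference of the expectations -/
noncomputable def D {ι : Type} (P Q : ι → Measure (ℕ → ℝ)) (j : ι) (f : (ℕ → ℝ) → ℝ) : ℝ :=
  ∫ x, f x ∂(P j) - ∫ x, f x ∂(Q j)

/-- one-sided comparison for all index sets with `r` elements -/
def Dom {ι : Type} (L : Filter ι) (P Q : ι → Measure (ℕ → ℝ)) (r : ℕ) : Prop :=
  ∀ I : Finset ℕ, I.card = r → ∀ s : ℕ → ℝ, ∀ ε : ℝ, 0 < ε → ∀ᶠ j in L, F (P j) I s ≤ F (Q j) I s + ε

/-! ### random unitary matrices -/

/-- `e(t) = exp (2 π i t)` -/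
noncomputable def e (t : ℝ) : ℂ := Complex.exp (2 * Real.pi * t * Complex.I)

/-- the joint law of the eigenangles, divided by `2π`, of a random `M × M` unitary matrix -/
noncomputable def cue (M : ℕ) : Measure (Fin M → ℝ) :=
  (volume.restrict (Set.univ.pi fun _ => Set.Ico (0 : ℝ) 1)).withDensity fun θ =>
    ENNReal.ofReal ((∏ i, ∏ j ∈ Finset.Ioi i, ‖e (θ j) - e (θ i)‖ ^ 2) / M.factorial)

/-- the points `M θ_i` in increasing order, continued periodically (period `M`) -/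
noncomputable def pt {M : ℕ} (θ : Fin M → ℝ) (n : ℕ) : ℝ :=
  if h : 0 < M then M * (θ (Tuple.sort θ ⟨n % M, Nat.mod_lt n h⟩) + (n / M : ℕ)) else 0

/-- the gaps, mean value one -/
noncomputable def gap {M : ℕ} (θ : Fin M → ℝ) (n : ℕ) : ℝ := pt θ (n + 1) - pt θ n

/-- the law of the sequence of gaps to the right of a random eigenangle -/
noncomputable def Q (M : ℕ) : Measure (ℕ → ℝ) :=
  (M : ENNReal)⁻¹ • ∑ a ∈ Finset.range M, (cue M).map (fun θ i => gap θ (a + i))

/-- the number of the points `M θ_i` in `[t, t + u)` modulo `M` -/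
noncomputable def cnt {M : ℕ} (θ : Fin M → ℝ) (t u : ℝ) : ℕ :=
  (Finset.univ.filter fun i => Int.fract (θ i - t / M) * M < u).card

/-- the number of the points in a set -/
noncomputable def num {M : ℕ} (θ : Fin M → ℝ) (U : Set ℝ) : ℕ := by
  classical exact (Finset.univ.filter fun i => θ i ∈ U).card

/-- the variance functional -/
noncomputable def V (M : ℕ) (U : Set ℝ) : ℝ :=
  M * volume.real U - ∑ j : Fin M, ∑ k : Fin M, ‖∫ t in U, e (((j : ℝ) - k) * t)‖ ^ 2

end Pool.Agent.N805.JG
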