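import Pool.Agent.N805.JG.AllU
import Pool.Agent.N805.JG.Zeros
import Pool.Agent.N247.JG.VAR
import Pool.Agent.N427.JG.ORDU

/-!
# Project JG (helper805): final assembly
-/

set_option autoImplicit false

open MeasureTheory Filter Topology

namespace Pool.Agent.N805.JG

variable {ι : Type} {L : Filter ι} {P Q' : ι → Measure (ℕ → ℝ)}

theorem good_Q' : Good atTop fun M : ℕ => Q (M + 2) := good_Q N247.JG.VAR

/-- the conclusion of the comparison theorems -/
def Eql {ι : Type} (L : Filter ι) (P Q : ι → Measure (ℕ → ℝ)) (r : ℕ) : Prop :=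
  ∀ I : Finset ℕ, I.card ≤ r → ∀ T : ℕ → ℝ, (∀ i, 0 ≤ T i) →
    Tendsto (fun j => D P Q j (fun x => ∏ i ∈ I, max (T i - x i) 0)) L (𝓝 0)

lemma Eql.swap {r : ℕ} (h : Eql L P Q' r) : Eql L Q' P r := by
  intro I hI T hT
  simp_rw [D_swap (P := P) (Q' := Q')]
  simpa using (h I hI T hT).neg

theorem eql_of_dom (hP : Good L P) (hQ : Good L Q') {r : ℕ} (hD : Dom L P Q' r) : Eql L P Q' r := by
  have hDk := dom_le N136.JG.MARG hP hQ hD
  have hl := low_all N765.JG.INT N887.JG.ORD N951.JG.DENS N803.JG.PROD N55.JG.SIGN N564.JG.SUM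
    N342.JG.BACK hP hQ hDk
  intro I hI T hT
  rcases Nat.eq_zero_or_pos I.card with h0 | h0
  · rw [Finset.card_eq_zero] at h0
    subst h0
    have := lowG_one hP hQ ∅ (by simp) (fun _ _ => 1) 1 0 (fun i => continuous_const) (by simp)
    simpa using this
  · exact core N765.JG.INT N887.JG.ORD N55.JG.SIGN N564.JG.SUM N342.JG.BACK hP hQ h0 (hDk _ hI)
      (hl _ h0 (by omega)) I rfl T hT

theorem eql_of_domU (hP : Good L P) (hQ : Good L Q') {r : ℕ} (hD : DomU L P Q' r) :
    Eql L P Q' r :=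
  eqU N427.JG.ORDU N427.JG.ORDV hP hQ hD

/-- orthants, with a small enlargement -/
theorem Eql.sym {r : ℕ} (h : Eql L P Q' r) (hP : Good L P) (hQ : Good L Q') (I : Finset ℕ)
    (hI : I.card ≤ r) (s : ℕ → ℝ) (d ε : ℝ) (hd : 0 < d) (hε : 0 < ε) :
    ∀ᶠ j in L, F (Q' j) I s ≤ F (P j) I (fun i => s i + d) + ε :=
  N475.JG.SYM hP hQ I (h I hI) s d ε hd hε

/-! ### single index sets -/

/-- one-sided comparison for the index set `I` -/
def DI {ι : Type} (L : Filter ι) (P Q : ι → Measure (ℕ → ℝ)) (I : Finset ℕ) : Prop :=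
  ∀ s : ℕ → ℝ, ∀ ε : ℝ, 0 < ε → ∀ᶠ j in L, F (P j) I s ≤ F (Q j) I s + ε

/-- one-sided comparison for the index set `I`, upper orthants -/
def DU {ι : Type} (L : Filter ι) (P Q : ι → Measure (ℕ → ℝ)) (I : Finset ℕ) : Prop :=
  ∀ s : ℕ → ℝ, ∀ ε : ℝ, 0 < ε → ∀ᶠ j in L, FU (P j) I s ≤ FU (Q j) I s + ε

lemma di_one (hP : Good L P) (hQ : Good L Q') (I : Finset ℕ) (i0 : ℕ) (hi0 : i0 ∉ I)
    (h : DI L P Q' (insert i0 I)) : DI L P Q' I := by
  intro s ε hε
  obtain ⟨C, hC⟩ := hP.mom i0 1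
  obtain ⟨C', hC'⟩ : ∃ C' : ℝ, C' = max C 0 := ⟨_, rfl⟩
  have hC0 : 0 ≤ C' := by rw [hC']; exact le_max_right _ _
  obtain ⟨S, hS⟩ : ∃ S : ℝ, S = 2 * C' / ε + 1 := ⟨_, rfl⟩
  have hS0 : 0 < S := by rw [hS]; positivity
  have hs1 : Function.update s i0 S i0 = S := Function.update_self _ _ _
  have hs2 : ∀ i ∈ I, Function.update s i0 S i = s i := by
    intro i hi
    exact Function.update_of_ne (ne_of_mem_of_not_mem hi hi0) _ _
  have h1 := h (Function.update s i0 S) (ε / 4) (by positivity)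
  filter_upwards [h1, hC] with j h2 h3
  have := hP.prob j
  have := hQ.prob j
  have h4 : F (P j) I s ≤ F (P j) (insert i0 I) (Function.update s i0 S) +
      (P j).real {x | S ≤ x i0} := by
    unfold F
    refine (measureReal_mono ?_).trans (measureReal_union_le _ _)
    intro x hx
    rcases le_or_gt (x i0) S with h | h
    · left
      intro i hi
      rcases Finset.mem_insert.1 hi with rfl | hi
      · rw [hs1]; exact h
      · rw [hs2 i hi]; exact hx i hi
    · right
      exact h.le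
  have h5 : (P j).real {x | S ≤ x i0} ≤ ε / 2 := by
    have h6 := mul_meas_ge_le_integral_of_nonneg (μ := P j) (f := fun x : ℕ → ℝ => x i0)
      (hP.nn j i0) (by simpa using hP.int j i0 1) S
    have h7 : ∫ x, x i0 ∂(P j) ≤ C' := by
      have h8 : ∫ x, x i0 ^ 1 ∂(P j) = ∫ x, x i0 ∂(P j) := by simp only [pow_one]
      rw [← h8, hC']
      exact h3.trans (le_max_left _ _)
    have h9 : S * (P j).real {x | S ≤ x i0} ≤ C' := h6.trans h7
    have h10 : C' ≤ S * (ε / 2) := by
      rw [hS]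
      have : (2 * C' / ε + 1) * (ε / 2) = C' + ε / 2 := by field_simp
      rw [this]
      linarith
    exact le_of_mul_le_mul_left (h9.trans h10) hS0
  have h11 : F (Q' j) (insert i0 I) (Function.update s i0 S) ≤ F (Q' j) I s := by
    unfold F
    refine measureReal_mono ?_
    intro x hx i hi
    have := hx i (Finset.mem_insert_of_mem hi)
    rwa [hs2 i hi] at this
  linarith

lemma du_one (hP : Good L P) (hQ : Good L Q') (I : Finset ℕ) (i0 : ℕ) (hi0 : i0 ∉ I)
    (h : DU L P Q' (insert i0 I)) : DU L P Q' I := by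
  intro s ε hε
  filter_upwards [h (Function.update s i0 (-1)) ε hε] with j hj
  rwa [FU_insert i0 (hP.nn j i0) I hi0, FU_insert i0 (hQ.nn j i0) I hi0] at hj

lemma di_sub (hP : Good L P) (hQ : Good L Q') {I J : Finset ℕ} (hIJ : I ⊆ J) (h : DI L P Q' J) :
    DI L P Q' I := by
  classical
  have key : ∀ K : Finset ℕ, Disjoint I K → DI L P Q' (I ∪ K) → DI L P Q' I := by
    intro K
    induction K using Finset.induction_on with
    | empty => intro _ h; rwa [Finset.union_empty] at h
    | insert a K ha ih =>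
      intro hd h
      rw [Finset.disjoint_insert_right] at hd
      rw [Finset.union_insert] at h
      exact ih hd.2 (di_one hP hQ (I ∪ K) a (by simp [hd.1, ha]) h)
  exact key (J \ I) Finset.disjoint_sdiff (by rwa [Finset.union_sdiff_of_subset hIJ])

lemma du_sub (hP : Good L P) (hQ : Good L Q') {I J : Finset ℕ} (hIJ : I ⊆ J) (h : DU L P Q' J) :
    DU L P Q' I := by
  classical
  have key : ∀ K : Finset ℕ, Disjoint I K → DU L P Q' (I ∪ K) → DU L P Q' I := by
    intro K
    induction K using Finset.induction_on with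
    | empty => intro _ h; rwa [Finset.union_empty] at h
    | insert a K ha ih =>
      intro hd h
      rw [Finset.disjoint_insert_right] at hd
      rw [Finset.union_insert] at h
      exact ih hd.2 (du_one hP hQ (I ∪ K) a (by simp [hd.1, ha]) h)
  exact key (J \ I) Finset.disjoint_sdiff (by rwa [Finset.union_sdiff_of_subset hIJ])

lemma sub_range (I : Finset ℕ) : I ⊆ Finset.range (I.sup id + 1) := by
  intro i hi
  rw [Finset.mem_range]
  have : i ≤ I.sup id := Finset.le_sup (f := id) hi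
  omega

/-! ### upper orthants by inclusion-exclusion -/

lemma FU_eq (μ : Measure (ℕ → ℝ)) [IsProbabilityMeasure μ] (I : Finset ℕ) (s : ℕ → ℝ) :
    FU μ I s = ∑ J ∈ I.powerset, (-1) ^ J.card * F μ J s := by
  classical
  obtain ⟨f, hf⟩ : ∃ f : ℕ → (ℕ → ℝ) → ℝ, f = fun i x => if x i ≤ s i then 1 else 0 := ⟨_, rfl⟩
  have hFU : FU μ I s = ∫ x, ∏ i ∈ I, (1 - f i x) ∂μ := by
    have hm : MeasurableSet {x : ℕ → ℝ | ∀ i ∈ I, s i < x i} := by
      have : {x : ℕ → ℝ | ∀ i ∈ I, s i < x i} = ⋂ i ∈ I, {x : ℕ → ℝ | s i < x i} := by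
        ext x; simp
      rw [this]
      exact Finset.measurableSet_biInter I fun i _ =>
        measurableSet_lt measurable_const (measurable_pi_apply i)
    unfold FU
    rw [← integral_indicator_one hm]
    congr 1
    funext x
    by_cases h : ∀ i ∈ I, s i < x i
    · rw [Set.indicator_of_mem (by exact h), Pi.one_apply]
      symm
      apply Finset.prod_eq_one
      intro i hi
      rw [hf]
      simp only [if_neg (not_le.2 (h i hi)), sub_zero]
    · rw [Set.indicator_of_notMem (by exact h)]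
      push Not at h
      obtain ⟨i, hi, hle⟩ := h
      symm
      apply Finset.prod_eq_zero hi
      rw [hf]
      simp only [if_pos hle, sub_self]
  have hF : ∀ J : Finset ℕ, F μ J s = ∫ x, ∏ i ∈ J, f i x ∂μ := by
    intro J
    rw [F_int]
    congr 1
    funext x
    by_cases h : ∀ i ∈ J, x i ≤ s i
    · rw [Set.indicator_of_mem (by exact h)]
      symm
      apply Finset.prod_eq_one
      intro i hi
      rw [hf]
      simp only [if_pos (h i hi)]
    · rw [Set.indicator_of_notMem (by exact h)]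
      push Not at h
      obtain ⟨i, hi, hle⟩ := h
      symm
      apply Finset.prod_eq_zero hi
      rw [hf]
      simp only [if_neg (not_le.2 hle)]
  have hint : ∀ J : Finset ℕ, Integrable (fun x => ∏ i ∈ J, f i x) μ := by
    intro J
    have e : (fun x => ∏ i ∈ J, f i x) =
        {x : ℕ → ℝ | ∀ i ∈ J, x i ≤ s i}.indicator (fun _ => (1 : ℝ)) := by
      funext x
      by_cases h : ∀ i ∈ J, x i ≤ s i
      · rw [Set.indicator_of_mem (by exact h)]
        apply Finset.prod_eq_one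
        intro i hi
        rw [hf]
        simp only [if_pos (h i hi)]
      · rw [Set.indicator_of_notMem (by exact h)]
        push Not at h
        obtain ⟨i, hi, hle⟩ := h
        apply Finset.prod_eq_zero hi
        rw [hf]
        simp only [if_neg (not_le.2 hle)]
    rw [e]
    exact (integrable_const 1).indicator (meas_orth J s)
  have hexp : ∀ x, ∏ i ∈ I, (1 - f i x) = ∑ J ∈ I.powerset, (-1) ^ J.card * ∏ i ∈ J, f i x := by
    intro x
    have e1 : ∀ i, 1 - f i x = -f i x + 1 := fun i => by ring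
    simp_rw [e1]
    rw [Finset.prod_add]
    refine Finset.sum_congr rfl fun J _ => ?_
    rw [Finset.prod_neg, Finset.prod_const_one, mul_one]
  rw [hFU]
  simp_rw [hexp]
  rw [integral_finset_sum _ (fun J _ => (hint J).const_mul _)]
  refine Finset.sum_congr rfl fun J _ => ?_
  rw [integral_const_mul, hF]

/-- asymptotic equality of the joint distribution functions of at most `r` of the variables -/
def Fl {ι : Type} (L : Filter ι) (P Q : ι → Measure (ℕ → ℝ)) (r : ℕ) : Prop :=
  ∀ I : Finset ℕ, I.card ≤ r → ∀ s : ℕ → ℝ, ∀ ε : ℝ, 0 < ε →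
    ∀ᶠ j in L, |F (P j) I s - F (Q j) I s| ≤ ε

lemma Fl.tendsto {r : ℕ} (h : Fl L P Q' r) (I : Finset ℕ) (hI : I.card ≤ r) (s : ℕ → ℝ) :
    Tendsto (fun j => F (P j) I s - F (Q' j) I s) L (𝓝 0) := by
  rw [Metric.tendsto_nhds]
  intro ε hε
  filter_upwards [h I hI s (ε / 2) (by linarith)] with j hj
  rw [Real.dist_eq, sub_zero]
  linarith

lemma Fl.upper {r : ℕ} (hp : ∀ j, IsProbabilityMeasure (P j)) (hq : ∀ j, IsProbabilityMeasure (Q' j))
    (h : Fl L P Q' r) (I : Finset ℕ) (hI : I.card ≤ r) (s : ℕ → ℝ) :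
    Tendsto (fun j => FU (P j) I s - FU (Q' j) I s) L (𝓝 0) := by
  have e : ∀ j, FU (P j) I s - FU (Q' j) I s =
      ∑ J ∈ I.powerset, (-1) ^ J.card * (F (P j) J s - F (Q' j) J s) := by
    intro j
    have := hp j
    have := hq j
    rw [FU_eq, FU_eq, ← Finset.sum_sub_distrib]
    refine Finset.sum_congr rfl fun J _ => ?_
    ring
  have hh : Tendsto (fun j => ∑ J ∈ I.powerset, (-1 : ℝ) ^ J.card * (F (P j) J s - F (Q' j) J s)) L
      (𝓝 (∑ J ∈ I.powerset, (-1 : ℝ) ^ J.card * 0)) :=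
    tendsto_finset_sum _ fun J hJ => (h.tendsto J
      ((Finset.card_le_card (Finset.mem_powerset.1 hJ)).trans hI) s).const_mul _
  rw [show (∑ J ∈ I.powerset, (-1 : ℝ) ^ J.card * 0) = 0 by simp] at hh
  exact hh.congr fun j => (e j).symm

/-! ### comparison with CUE -/

/-- for CUE the enlargement can be removed -/
theorem fl_of_eql {r : ℕ} (μ : ι → ℕ) (hP : Good L P) (hQ : Good L (fun j => Q (μ j + 2)))
    (h : Eql L P (fun j => Q (μ j + 2)) r) : Fl L P (fun j => Q (μ j + 2)) r := by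
  intro I hI s ε hε
  obtain ⟨d, hd0, hd1, hd⟩ : ∃ d : ℝ, 0 < d ∧ d ≤ 1 ∧ (I.card : ℝ) * (20 * d) ≤ ε / 2 := by
    refine ⟨min 1 (ε / (40 * (I.card + 1))), by positivity, min_le_left _ _, ?_⟩
    have h1 : min 1 (ε / (40 * ((I.card : ℝ) + 1))) ≤ ε / (40 * (I.card + 1)) := min_le_right _ _
    calc (I.card : ℝ) * (20 * min 1 (ε / (40 * (I.card + 1))))
        ≤ ((I.card : ℝ) + 1) * (20 * (ε / (40 * (I.card + 1)))) := by gcongr; linarith
      _ = ε / 2 := by field_simp; ring
  have h1 := h.sym hP hQ I hI (fun i => s i - d) d (ε / 2) hd0 (by linarith)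
  have h2 := h.swap.sym hQ hP I hI s d (ε / 2) hd0 (by linarith)
  filter_upwards [h1, h2] with j h1 h2
  have := hQ.prob j
  have h3 := F_cont (μ j + 2) (by omega) I s d hd0 hd1
  have h4 := F_cont (μ j + 2) (by omega) I (fun i => s i - d) d hd0 hd1
  simp only [sub_add_cancel] at h1 h4
  rw [abs_le]
  constructor <;> linarith

lemma dom_of_fl {r : ℕ} (h : Fl L P Q' r) : Dom L P Q' r := by
  intro I hI s ε hε
  filter_upwards [h I hI.le s ε hε] with j hj
  linarith [(abs_le.1 hj).2]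

lemma dom_of_fl' {r : ℕ} (h : Fl L P Q' r) : Dom L Q' P r := by
  intro I hI s ε hε
  filter_upwards [h I hI.le s ε hε] with j hj
  linarith [(abs_le.1 hj).1]

lemma domU_of_fl {r : ℕ} (hp : ∀ j, IsProbabilityMeasure (P j))
    (hq : ∀ j, IsProbabilityMeasure (Q' j)) (h : Fl L P Q' r) : DomU L P Q' r := by
  intro I hI s ε hε
  filter_upwards [Metric.tendsto_nhds.1 (h.upper hp hq I hI.le s) ε hε] with j hj
  rw [Real.dist_eq, sub_zero] at hj
  linarith [(abs_lt.1 hj).2]

lemma domU_of_fl' {r : ℕ} (hp : ∀ j, IsProbabilityMeasure (P j))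
    (hq : ∀ j, IsProbabilityMeasure (Q' j)) (h : Fl L P Q' r) : DomU L Q' P r := by
  intro I hI s ε hε
  filter_upwards [Metric.tendsto_nhds.1 (h.upper hp hq I hI.le s) ε hε] with j hj
  rw [Real.dist_eq, sub_zero] at hj
  linarith [(abs_lt.1 hj).1]

/-- **the four halves** -/
theorem tfae_r (μ : ι → ℕ) (hP : Good L P) (hQ : Good L (fun j => Q (μ j + 2))) (r : ℕ) :
    List.TFAE [Fl L P (fun j => Q (μ j + 2)) r, Dom L P (fun j => Q (μ j + 2)) r,
      Dom L (fun j => Q (μ j + 2)) P r, DomU L P (fun j => Q (μ j + 2)) r,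
      DomU L (fun j => Q (μ j + 2)) P r] := by
  tfae_have 1 → 2 := dom_of_fl
  tfae_have 1 → 3 := dom_of_fl'
  tfae_have 1 → 4 := domU_of_fl hP.prob hQ.prob
  tfae_have 1 → 5 := domU_of_fl' hP.prob hQ.prob
  tfae_have 2 → 1 := fun h => fl_of_eql μ hP hQ (eql_of_dom hP hQ h)
  tfae_have 3 → 1 := fun h => fl_of_eql μ hP hQ (eql_of_dom hQ hP h).swap
  tfae_have 4 → 1 := fun h => fl_of_eql μ hP hQ (eql_of_domU hP hQ h)
  tfae_have 5 → 1 := fun h => fl_of_eql μ hP hQ (eql_of_domU hQ hP h).swap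
  tfae_finish

/-- the same for all `r`, with consecutive gaps -/
theorem tfae_all (μ : ι → ℕ) (hP : Good L P) (hQ : Good L (fun j => Q (μ j + 2))) :
    List.TFAE [∀ r, Fl L P (fun j => Q (μ j + 2)) r,
      ∀ r, DI L P (fun j => Q (μ j + 2)) (Finset.range r),
      ∀ r, DI L (fun j => Q (μ j + 2)) P (Finset.range r),
      ∀ r, DU L P (fun j => Q (μ j + 2)) (Finset.range r),
      ∀ r, DU L (fun j => Q (μ j + 2)) P (Finset.range r)] := by
  tfae_have 1 → 2 := fun h r => dom_of_fl (h r) (Finset.range r) (Finset.card_range r)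
  tfae_have 1 → 3 := fun h r => dom_of_fl' (h r) (Finset.range r) (Finset.card_range r)
  tfae_have 1 → 4 := fun h r => domU_of_fl hP.prob hQ.prob (h r) (Finset.range r) (Finset.card_range r)
  tfae_have 1 → 5 := fun h r => domU_of_fl' hP.prob hQ.prob (h r) (Finset.range r) (Finset.card_range r)
  tfae_have 2 → 1 := fun h r => ((tfae_r μ hP hQ r).out 0 1).2 fun I _ =>
    di_sub hP hQ (sub_range I) (h _)
  tfae_have 3 → 1 := fun h r => ((tfae_r μ hP hQ r).out 0 2).2 fun I _ =>
    di_sub hQ hP (sub_range I) (h _)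
  tfae_have 4 → 1 := fun h r => ((tfae_r μ hP hQ r).out 0 3).2 fun I _ =>
    du_sub hP hQ (sub_range I) (h _)
  tfae_have 5 → 1 := fun h r => ((tfae_r μ hP hQ r).out 0 4).2 fun I _ =>
    du_sub hQ hP (sub_range I) (h _)
  tfae_finish

end Pool.Agent.N805.JG
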