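import Pool.Agent.N805.JG.End

/-!
# Project JG (helper805): the explicit forms
-/

set_option autoImplicit false

open MeasureTheory Filter Topology

namespace Pool.Agent.N805.JG

open LG (dlt)
open SP (RHs)

noncomputable section

/-- the proportion of `n ≤ N` with `δ_{n+i} ≤ s_i` for all `i ∈ I` -/
def Fz (N : ℕ) (I : Finset ℕ) (s : ℕ → ℝ) : ℝ :=
  ({n : ℕ | 1 ≤ n ∧ n ≤ N ∧ ∀ i ∈ I, dlt (n + i) ≤ s i}.ncard : ℝ) / N

/-- the proportion of `n ≤ N` with `δ_{n+i} > s_i` for all `i ∈ I` -/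
def FzU (N : ℕ) (I : Finset ℕ) (s : ℕ → ℝ) : ℝ :=
  ({n : ℕ | 1 ≤ n ∧ n ≤ N ∧ ∀ i ∈ I, s i < dlt (n + i)}.ncard : ℝ) / N

/-- the same for CUE -/
def Gq (M : ℕ) (I : Finset ℕ) (s : ℕ → ℝ) : ℝ :=
  (∑ a ∈ Finset.range M, (cue M).real {θ | ∀ i ∈ I, gap θ (a + i) ≤ s i}) / M

/-- the same for CUE -/
def GqU (M : ℕ) (I : Finset ℕ) (s : ℕ → ℝ) : ℝ :=
  (∑ a ∈ Finset.range M, (cue M).real {θ | ∀ i ∈ I, s i < gap θ (a + i)}) / M

lemma Gq_eq (M : ℕ) (I : Finset ℕ) (s : ℕ → ℝ) : Gq M I s = F (Q M) I s := by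
  unfold Gq F
  rw [N424.JG.real_Q N946.JG.MEAS (N438.JG.PROB N459.JG.EIG) M _ (meas_orth I s), div_eq_inv_mul]
  rfl

lemma meas_orthU (I : Finset ℕ) (s : ℕ → ℝ) : MeasurableSet {x : ℕ → ℝ | ∀ i ∈ I, s i < x i} := by
  have : {x : ℕ → ℝ | ∀ i ∈ I, s i < x i} = ⋂ i ∈ I, {x : ℕ → ℝ | s i < x i} := by
    ext x; simp
  rw [this]
  exact Finset.measurableSet_biInter I fun i _ =>
    measurableSet_lt measurable_const (measurable_pi_apply i)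

lemma GqU_eq (M : ℕ) (I : Finset ℕ) (s : ℕ → ℝ) : GqU M I s = FU (Q M) I s := by
  unfold GqU FU
  rw [N424.JG.real_Q N946.JG.MEAS (N438.JG.PROB N459.JG.EIG) M _ (meas_orthU I s), div_eq_inv_mul]
  rfl

lemma PZ_real (N : ℕ) (A : Set (ℕ → ℝ)) (hA : MeasurableSet A) :
    (PZ N).real A = ({n : ℕ | 1 ≤ n ∧ n ≤ N + 1 ∧ (fun i => dp (n + i)) ∈ A}.ncard : ℝ) / (N + 1 : ℕ) := by
  classical
  rw [← integral_indicator_one hA, PZ_int, div_eq_inv_mul]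
  congr 1
  have e : {n : ℕ | 1 ≤ n ∧ n ≤ N + 1 ∧ (fun i => dp (n + i)) ∈ A} =
      ((Finset.Icc 1 (N + 1)).filter fun n => (fun i => dp (n + i)) ∈ A : Finset ℕ) := by
    ext n; simp [and_assoc]
  rw [e, Set.ncard_coe_finset, Finset.card_filter]
  push_cast
  refine Finset.sum_congr rfl fun n _ => ?_
  by_cases h : (fun i => dp (n + i)) ∈ A
  · rw [if_pos h, Set.indicator_of_mem h, Pi.one_apply]
  · rw [if_neg h, Set.indicator_of_notMem h]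

/-- two families of indices that agree from `n0` on -/
lemma ncard_close (n0 N : ℕ) (p q : ℕ → Prop) (h : ∀ n, n0 ≤ n → (p n ↔ q n)) :
    |({n : ℕ | 1 ≤ n ∧ n ≤ N ∧ p n}.ncard : ℝ) - ({n : ℕ | 1 ≤ n ∧ n ≤ N ∧ q n}.ncard : ℝ)| ≤ n0 := by
  have key : ∀ p q : ℕ → Prop, (∀ n, n0 ≤ n → (p n ↔ q n)) →
      ({n : ℕ | 1 ≤ n ∧ n ≤ N ∧ p n}.ncard : ℝ) ≤ ({n : ℕ | 1 ≤ n ∧ n ≤ N ∧ q n}.ncard : ℝ) + n0 := by
    intro p q h
    have hfin : {n : ℕ | 1 ≤ n ∧ n ≤ N ∧ q n}.Finite :=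
      (Set.finite_Icc 1 N).subset fun n hn => ⟨hn.1, hn.2.1⟩
    have hsub : {n : ℕ | 1 ≤ n ∧ n ≤ N ∧ p n} ⊆ {n : ℕ | 1 ≤ n ∧ n ≤ N ∧ q n} ∪ Finset.range n0 := by
      intro n hn
      rcases Nat.lt_or_ge n n0 with h1 | h1
      · right; simpa using h1
      · left; exact ⟨hn.1, hn.2.1, (h n h1).1 hn.2.2⟩
    have h1 := Set.ncard_le_ncard hsub (hfin.union (Finset.finite_toSet _))
    have h2 := Set.ncard_union_le {n : ℕ | 1 ≤ n ∧ n ≤ N ∧ q n} (Finset.range n0 : Set ℕ)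
    rw [Set.ncard_coe_finset, Finset.card_range] at h2
    exact_mod_cast h1.trans h2
  have h1 := key p q h
  have h2 := key q p fun n hn => (h n hn).symm
  rw [abs_le]
  constructor <;> linarith

lemma Fz_close : ∃ n0 : ℕ, ∀ N : ℕ, 1 ≤ N → ∀ (I : Finset ℕ) (s : ℕ → ℝ),
    |Fz N I s - F (PZ (N - 1)) I s| ≤ n0 / N ∧ |FzU N I s - FU (PZ (N - 1)) I s| ≤ n0 / N := by
  obtain ⟨n0, _, h0⟩ := dp_eq
  refine ⟨n0, fun N hN I s => ?_⟩
  have hN0 : (0 : ℝ) < N := by exact_mod_cast hN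
  have hN1 : N - 1 + 1 = N := by omega
  have hdp : ∀ n i : ℕ, n0 ≤ n → dp (n + i) = dlt (n + i) := fun n i hn => h0 _ (by omega)
  constructor
  · unfold F Fz
    rw [PZ_real _ _ (meas_orth I s), hN1, ← sub_div, abs_div, abs_of_pos hN0]
    apply div_le_div_of_nonneg_right _ hN0.le
    apply ncard_close n0 N (fun n => ∀ i ∈ I, dlt (n + i) ≤ s i)
      (fun n => (fun i => dp (n + i)) ∈ {x : ℕ → ℝ | ∀ i ∈ I, x i ≤ s i})
    intro n hn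
    simp only [Set.mem_setOf_eq]
    refine forall₂_congr fun i _ => ?_
    rw [hdp n i hn]
  · unfold FU FzU
    rw [PZ_real _ _ (meas_orthU I s), hN1, ← sub_div, abs_div, abs_of_pos hN0]
    apply div_le_div_of_nonneg_right _ hN0.le
    apply ncard_close n0 N (fun n => ∀ i ∈ I, s i < dlt (n + i))
      (fun n => (fun i => dp (n + i)) ∈ {x : ℕ → ℝ | ∀ i ∈ I, s i < x i})
    intro n hn
    simp only [Set.mem_setOf_eq]
    refine forall₂_congr fun i _ => ?_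
    rw [hdp n i hn]

/-- comparing the explicit form with the measures along a sequence tending to infinity -/
lemma Fz_ev {ι : Type} {L : Filter ι} (φ : ι → ℕ) (hφ : Tendsto φ L atTop) (ε : ℝ) (hε : 0 < ε) :
    ∀ᶠ j in L, ∀ (I : Finset ℕ) (s : ℕ → ℝ),
      |Fz (φ j) I s - F (PZ (φ j - 1)) I s| ≤ ε ∧ |FzU (φ j) I s - FU (PZ (φ j - 1)) I s| ≤ ε := by
  obtain ⟨n0, h0⟩ := Fz_close
  obtain ⟨K, hK⟩ := exists_nat_ge ((n0 : ℝ) / ε + 1)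
  filter_upwards [hφ.eventually_ge_atTop K] with j hj I s
  have h1 : (n0 : ℝ) / ε + 1 ≤ (φ j : ℝ) := hK.trans (by exact_mod_cast hj)
  have hd : 0 ≤ (n0 : ℝ) / ε := by positivity
  have h2 : (1 : ℝ) ≤ (φ j : ℝ) := by linarith
  have h3 : (n0 : ℝ) / (φ j : ℝ) ≤ ε := by
    rw [div_le_iff₀ (by linarith)]
    have : (n0 : ℝ) / ε ≤ φ j := by linarith
    rw [div_le_iff₀ hε] at this
    linarith
  have h4 := h0 (φ j) (by exact_mod_cast h2) I s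
  exact ⟨h4.1.trans h3, h4.2.trans h3⟩

/-! ### two-parameter limits -/

/-- eventually in two parameters -/
def Ev (p : ℕ → ℕ → Prop) : Prop := ∃ K : ℕ, ∀ j, K ≤ j → ∀ M, K ≤ M → p j M

lemma ev_iff (p : ℕ → ℕ → Prop) : Ev p ↔ ∀ᶠ x : ℕ × ℕ in atTop ×ˢ atTop, p x.1 (x.2 + 2) := by
  rw [prod_atTop_atTop_eq, eventually_atTop_prod_self]
  constructor
  · rintro ⟨K, hK⟩
    exact ⟨K, fun k l hk hl => hK k hk (l + 2) (by omega)⟩
  · rintro ⟨K, hK⟩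
    refine ⟨K + 2, fun j hj M hM => ?_⟩
    have := hK j (M - 2) (by omega) (by omega)
    rwa [Nat.sub_add_cancel (by omega)] at this

/-- the family of the zeros along `φ` -/
abbrev PF (φ : ℕ → ℕ) : ℕ × ℕ → Measure (ℕ → ℝ) := fun x => PZ (φ x.1 - 1)

/-- the CUE family -/
abbrev QF : ℕ × ℕ → Measure (ℕ → ℝ) := fun x => Q (x.2 + 2)

lemma good_PF (hRH : RHs) (φ : ℕ → ℕ) (hφ : Tendsto φ atTop atTop) :
    Good (atTop ×ˢ atTop) (PF φ) := by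
  have h1 : Tendsto (fun x : ℕ × ℕ => φ x.1 - 1) (atTop ×ˢ atTop) atTop :=
    (tendsto_sub_atTop_nat 1).comp (hφ.comp tendsto_fst)
  exact (good_PZ hRH).comp h1

lemma good_QF : Good (atTop ×ˢ atTop) QF := by
  have h1 : Tendsto (fun x : ℕ × ℕ => x.2) (atTop ×ˢ atTop) atTop := tendsto_snd
  exact good_Q'.comp h1

lemma Fz_ev2 (φ : ℕ → ℕ) (hφ : Tendsto φ atTop atTop) (ε : ℝ) (hε : 0 < ε) :
    ∀ᶠ x : ℕ × ℕ in atTop ×ˢ atTop, ∀ (I : Finset ℕ) (s : ℕ → ℝ),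
      |Fz (φ x.1) I s - F (PF φ x) I s| ≤ ε ∧ |FzU (φ x.1) I s - FU (PF φ x) I s| ≤ ε :=
  Fz_ev (fun x : ℕ × ℕ => φ x.1) (hφ.comp tendsto_fst) ε hε

lemma full_iff (φ : ℕ → ℕ) (hφ : Tendsto φ atTop atTop) (r : ℕ) :
    (∀ I : Finset ℕ, I.card ≤ r → ∀ s : ℕ → ℝ, ∀ ε : ℝ, 0 < ε →
      Ev fun j M => |Fz (φ j) I s - Gq M I s| ≤ ε) ↔ Fl (atTop ×ˢ atTop) (PF φ) QF r := by
  refine forall₂_congr fun I _ => forall_congr' fun s => ?_
  constructor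
  · intro h ε hε
    have h1 := (ev_iff _).1 (h (ε / 2) (by linarith))
    filter_upwards [h1, Fz_ev2 φ hφ (ε / 2) (by linarith)] with x h1 h2
    rw [Gq_eq] at h1
    have h3 := (h2 I s).1
    rw [abs_le] at h1 h3 ⊢
    constructor <;> linarith [h1.1, h1.2, h3.1, h3.2]
  · intro h ε hε
    rw [ev_iff]
    filter_upwards [h (ε / 2) (by linarith), Fz_ev2 φ hφ (ε / 2) (by linarith)] with x h1 h2
    rw [Gq_eq]
    have h3 := (h2 I s).1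
    rw [abs_le] at h1 h3 ⊢
    constructor <;> linarith [h1.1, h1.2, h3.1, h3.2]

lemma di_iff (φ : ℕ → ℕ) (hφ : Tendsto φ atTop atTop) (I : Finset ℕ) :
    (∀ s : ℕ → ℝ, ∀ ε : ℝ, 0 < ε → Ev fun j M => Fz (φ j) I s ≤ Gq M I s + ε) ↔
      DI (atTop ×ˢ atTop) (PF φ) QF I := by
  refine forall_congr' fun s => ?_
  constructor
  · intro h ε hε
    have h1 := (ev_iff _).1 (h (ε / 2) (by linarith))
    filter_upwards [h1, Fz_ev2 φ hφ (ε / 2) (by linarith)] with x h1 h2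
    rw [Gq_eq] at h1
    have h3 := (h2 I s).1
    rw [abs_le] at h3
    linarith [h3.1, h3.2]
  · intro h ε hε
    rw [ev_iff]
    filter_upwards [h (ε / 2) (by linarith), Fz_ev2 φ hφ (ε / 2) (by linarith)] with x h1 h2
    rw [Gq_eq]
    have h3 := (h2 I s).1
    rw [abs_le] at h3
    linarith [h3.1, h3.2]

lemma di_iff' (φ : ℕ → ℕ) (hφ : Tendsto φ atTop atTop) (I : Finset ℕ) :
    (∀ s : ℕ → ℝ, ∀ ε : ℝ, 0 < ε → Ev fun j M => Gq M I s ≤ Fz (φ j) I s + ε) ↔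
      DI (atTop ×ˢ atTop) QF (PF φ) I := by
  refine forall_congr' fun s => ?_
  constructor
  · intro h ε hε
    have h1 := (ev_iff _).1 (h (ε / 2) (by linarith))
    filter_upwards [h1, Fz_ev2 φ hφ (ε / 2) (by linarith)] with x h1 h2
    rw [Gq_eq] at h1
    have h3 := (h2 I s).1
    rw [abs_le] at h3
    linarith [h3.1, h3.2]
  · intro h ε hε
    rw [ev_iff]
    filter_upwards [h (ε / 2) (by linarith), Fz_ev2 φ hφ (ε / 2) (by linarith)] with x h1 h2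
    rw [Gq_eq]
    have h3 := (h2 I s).1
    rw [abs_le] at h3
    linarith [h3.1, h3.2]

lemma du_iff (φ : ℕ → ℕ) (hφ : Tendsto φ atTop atTop) (I : Finset ℕ) :
    (∀ s : ℕ → ℝ, ∀ ε : ℝ, 0 < ε → Ev fun j M => FzU (φ j) I s ≤ GqU M I s + ε) ↔
      DU (atTop ×ˢ atTop) (PF φ) QF I := by
  refine forall_congr' fun s => ?_
  constructor
  · intro h ε hε
    have h1 := (ev_iff _).1 (h (ε / 2) (by linarith))
    filter_upwards [h1, Fz_ev2 φ hφ (ε / 2) (by linarith)] with x h1 h2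
    rw [GqU_eq] at h1
    have h3 := (h2 I s).2
    rw [abs_le] at h3
    linarith [h3.1, h3.2]
  · intro h ε hε
    rw [ev_iff]
    filter_upwards [h (ε / 2) (by linarith), Fz_ev2 φ hφ (ε / 2) (by linarith)] with x h1 h2
    rw [GqU_eq]
    have h3 := (h2 I s).2
    rw [abs_le] at h3
    linarith [h3.1, h3.2]

lemma du_iff' (φ : ℕ → ℕ) (hφ : Tendsto φ atTop atTop) (I : Finset ℕ) :
    (∀ s : ℕ → ℝ, ∀ ε : ℝ, 0 < ε → Ev fun j M => GqU M I s ≤ FzU (φ j) I s + ε) ↔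
      DU (atTop ×ˢ atTop) QF (PF φ) I := by
  refine forall_congr' fun s => ?_
  constructor
  · intro h ε hε
    have h1 := (ev_iff _).1 (h (ε / 2) (by linarith))
    filter_upwards [h1, Fz_ev2 φ hφ (ε / 2) (by linarith)] with x h1 h2
    rw [GqU_eq] at h1
    have h3 := (h2 I s).2
    rw [abs_le] at h3
    linarith [h3.1, h3.2]
  · intro h ε hε
    rw [ev_iff]
    filter_upwards [h (ε / 2) (by linarith), Fz_ev2 φ hφ (ε / 2) (by linarith)] with x h1 h2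
    rw [GqU_eq]
    have h3 := (h2 I s).2
    rw [abs_le] at h3
    linarith [h3.1, h3.2]

/-- **the main theorem, explicit form** -/
theorem explicit (hRH : RHs) (φ : ℕ → ℕ) (hφ : Tendsto φ atTop atTop) (r : ℕ) : List.TFAE [
    ∀ I : Finset ℕ, I.card ≤ r → ∀ s : ℕ → ℝ, ∀ ε : ℝ, 0 < ε →
      Ev fun j M => |Fz (φ j) I s - Gq M I s| ≤ ε,
    ∀ I : Finset ℕ, I.card = r → ∀ s : ℕ → ℝ, ∀ ε : ℝ, 0 < ε →
      Ev fun j M => Fz (φ j) I s ≤ Gq M I s + ε,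
    ∀ I : Finset ℕ, I.card = r → ∀ s : ℕ → ℝ, ∀ ε : ℝ, 0 < ε →
      Ev fun j M => Gq M I s ≤ Fz (φ j) I s + ε,
    ∀ I : Finset ℕ, I.card = r → ∀ s : ℕ → ℝ, ∀ ε : ℝ, 0 < ε →
      Ev fun j M => FzU (φ j) I s ≤ GqU M I s + ε,
    ∀ I : Finset ℕ, I.card = r → ∀ s : ℕ → ℝ, ∀ ε : ℝ, 0 < ε →
      Ev fun j M => GqU M I s ≤ FzU (φ j) I s + ε] := by
  have e2 : (∀ I : Finset ℕ, I.card = r → ∀ s : ℕ → ℝ, ∀ ε : ℝ, 0 < ε →
      Ev fun j M => Fz (φ j) I s ≤ Gq M I s + ε) ↔ Dom (atTop ×ˢ atTop) (PF φ) QF r :=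
    forall₂_congr fun I _ => di_iff φ hφ I
  have e3 : (∀ I : Finset ℕ, I.card = r → ∀ s : ℕ → ℝ, ∀ ε : ℝ, 0 < ε →
      Ev fun j M => Gq M I s ≤ Fz (φ j) I s + ε) ↔ Dom (atTop ×ˢ atTop) QF (PF φ) r :=
    forall₂_congr fun I _ => di_iff' φ hφ I
  have e4 : (∀ I : Finset ℕ, I.card = r → ∀ s : ℕ → ℝ, ∀ ε : ℝ, 0 < ε →
      Ev fun j M => FzU (φ j) I s ≤ GqU M I s + ε) ↔ DomU (atTop ×ˢ atTop) (PF φ) QF r :=
    forall₂_congr fun I _ => du_iff φ hφ I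
  have e5 : (∀ I : Finset ℕ, I.card = r → ∀ s : ℕ → ℝ, ∀ ε : ℝ, 0 < ε →
      Ev fun j M => GqU M I s ≤ FzU (φ j) I s + ε) ↔ DomU (atTop ×ˢ atTop) QF (PF φ) r :=
    forall₂_congr fun I _ => du_iff' φ hφ I
  rw [full_iff φ hφ r, e2, e3, e4, e5]
  exact tfae_r (fun x : ℕ × ℕ => x.2) (good_PF hRH φ hφ) good_QF r

/-- **all numbers of gaps, explicit form** -/
theorem explicit_all (hRH : RHs) (φ : ℕ → ℕ) (hφ : Tendsto φ atTop atTop) : List.TFAE [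
    ∀ r : ℕ, ∀ I : Finset ℕ, I.card ≤ r → ∀ s : ℕ → ℝ, ∀ ε : ℝ, 0 < ε →
      Ev fun j M => |Fz (φ j) I s - Gq M I s| ≤ ε,
    ∀ r : ℕ, ∀ s : ℕ → ℝ, ∀ ε : ℝ, 0 < ε →
      Ev fun j M => Fz (φ j) (Finset.range r) s ≤ Gq M (Finset.range r) s + ε,
    ∀ r : ℕ, ∀ s : ℕ → ℝ, ∀ ε : ℝ, 0 < ε →
      Ev fun j M => Gq M (Finset.range r) s ≤ Fz (φ j) (Finset.range r) s + ε,
    ∀ r : ℕ, ∀ s : ℕ → ℝ, ∀ ε : ℝ, 0 < ε →
      Ev fun j M => FzU (φ j) (Finset.range r) s ≤ GqU M (Finset.range r) s + ε,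
    ∀ r : ℕ, ∀ s : ℕ → ℝ, ∀ ε : ℝ, 0 < ε →
      Ev fun j M => GqU M (Finset.range r) s ≤ FzU (φ j) (Finset.range r) s + ε] := by
  rw [forall_congr' (full_iff φ hφ), forall_congr' fun r => di_iff φ hφ (Finset.range r),
    forall_congr' fun r => di_iff' φ hφ (Finset.range r),
    forall_congr' fun r => du_iff φ hφ (Finset.range r),
    forall_congr' fun r => du_iff' φ hφ (Finset.range r)]
  exact tfae_all (fun x : ℕ × ℕ => x.2) (good_PF hRH φ hφ) good_QF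

/-- **the antichain property, explicit form** -/
theorem antichain (hRH : RHs) (φ ψ : ℕ → ℕ) (hφ : Tendsto φ atTop atTop) (hψ : Tendsto ψ atTop atTop)
    (r : ℕ)
    (h : (∀ I : Finset ℕ, I.card = r → ∀ s : ℕ → ℝ, ∀ ε : ℝ, 0 < ε →
        ∀ᶠ j in atTop, Fz (φ j) I s ≤ Fz (ψ j) I s + ε) ∨
      (∀ I : Finset ℕ, I.card = r → ∀ s : ℕ → ℝ, ∀ ε : ℝ, 0 < ε →
        ∀ᶠ j in atTop, FzU (φ j) I s ≤ FzU (ψ j) I s + ε)) :
    ∀ I : Finset ℕ, I.card ≤ r → ∀ (s : ℕ → ℝ) (d ε : ℝ), 0 < d → 0 < ε → ∀ᶠ j in atTop,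
      Fz (ψ j) I s ≤ Fz (φ j) I (fun i => s i + d) + ε ∧
      Fz (φ j) I s ≤ Fz (ψ j) I (fun i => s i + d) + ε := by
  have hP : Good atTop (fun j => PZ (φ j - 1)) :=
    (good_PZ hRH).comp ((tendsto_sub_atTop_nat 1).comp hφ)
  have hQ : Good atTop (fun j => PZ (ψ j - 1)) :=
    (good_PZ hRH).comp ((tendsto_sub_atTop_nat 1).comp hψ)
  have hE : Eql atTop (fun j => PZ (φ j - 1)) (fun j => PZ (ψ j - 1)) r := by
    rcases h with h | h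
    · apply eql_of_dom hP hQ
      intro I hI s ε hε
      filter_upwards [h I hI s (ε / 3) (by linarith), Fz_ev φ hφ (ε / 3) (by linarith),
        Fz_ev ψ hψ (ε / 3) (by linarith)] with j h1 h2 h3
      have h4 := abs_le.1 (h2 I s).1
      have h5 := abs_le.1 (h3 I s).1
      linarith [h4.1, h4.2, h5.1, h5.2]
    · apply eql_of_domU hP hQ
      intro I hI s ε hε
      filter_upwards [h I hI s (ε / 3) (by linarith), Fz_ev φ hφ (ε / 3) (by linarith),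
        Fz_ev ψ hψ (ε / 3) (by linarith)] with j h1 h2 h3
      have h4 := abs_le.1 (h2 I s).2
      have h5 := abs_le.1 (h3 I s).2
      linarith [h4.1, h4.2, h5.1, h5.2]
  intro I hI s d ε hd hε
  filter_upwards [hE.sym hP hQ I hI s d (ε / 3) hd (by linarith),
    hE.swap.sym hQ hP I hI s d (ε / 3) hd (by linarith), Fz_ev φ hφ (ε / 3) (by linarith),
    Fz_ev ψ hψ (ε / 3) (by linarith)] with j h1 h2 h3 h4
  have a1 := abs_le.1 (h3 I s).1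
  have a2 := abs_le.1 (h3 I (fun i => s i + d)).1
  have a3 := abs_le.1 (h4 I s).1
  have a4 := abs_le.1 (h4 I (fun i => s i + d)).1
  constructor
  · linarith [a1.1, a1.2, a2.1, a2.2, a3.1, a3.2, a4.1, a4.2]
  · linarith [a1.1, a1.2, a2.1, a2.2, a3.1, a3.2, a4.1, a4.2]

end

end Pool.Agent.N805.JG
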