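import Pool.Agent.N805.JG.Def
import Pool.Agent.N805.GM.C
import Pool.Agent.N805.JG.Zeros

/-!
# Project JG (helper805): the family of the gaps of the zeros is good, second normalisation
(`dl n = (γ (n+1) - γ n) / 2π · log (γ n / 2π)`)
-/

set_option autoImplicit false

open MeasureTheory Filter Topology Set

namespace Pool.Agent.N805.JG.D

open LG (dlt)
open Pool.Agent.R320.CL (dl SS)
open Pool.Agent.R320.JL (fn mom2)
open Pool.Agent.N805.JG (small_pow_log meas_orth F_int)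
open SP (RHs)
open Pool.Agent.R320.JL (dl_nn add_pow_le2)
open Pool.Agent.Y743.CL (lm log_nat)
open Pool.Agent.N805.GM (g_mom)

noncomputable section

/-- the positive part of the gap (equal to the gap for all but finitely many `n`) -/
def dp (n : ℕ) : ℝ := max (dl n) 0

/-- the law of the gap sequences to the right of the first `N + 1` zeros -/
def PZ (N : ℕ) : Measure (ℕ → ℝ) :=
  (((N + 1 : ℕ) : ENNReal))⁻¹ • ∑ n ∈ Finset.Icc 1 (N + 1), Measure.dirac (fun i => dp (n + i))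

lemma dp_nonneg (n : ℕ) : 0 ≤ dp n := le_max_right _ _

lemma dp_eq : ∃ n0 : ℕ, 1 ≤ n0 ∧ ∀ n : ℕ, n0 ≤ n → dp n = dl n := by
  obtain ⟨n0, h0, h⟩ := dl_nn
  exact ⟨n0, h0, fun n hn => max_eq_left (h n hn)⟩

lemma PZ_integrable (N : ℕ) (f : (ℕ → ℝ) → ℝ) : Integrable f (PZ N) := by
  unfold PZ
  apply Integrable.smul_measure
  · rw [integrable_finset_sum_measure]
    intro n _
    exact integrable_dirac (by simp)
  · simp

lemma PZ_int (N : ℕ) (f : (ℕ → ℝ) → ℝ) :
    ∫ x, f x ∂(PZ N) = ((N + 1 : ℕ) : ℝ)⁻¹ * ∑ n ∈ Finset.Icc 1 (N + 1), f (fun i => dp (n + i)) := by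
  unfold PZ
  rw [integral_smul_measure, integral_finset_sum_measure (fun n _ => integrable_dirac (by simp)),
    ENNReal.toReal_inv, ENNReal.toReal_natCast, smul_eq_mul]
  congr 1
  refine Finset.sum_congr rfl fun n _ => ?_
  rw [integral_dirac]

instance PZ_prob (N : ℕ) : IsProbabilityMeasure (PZ N) := by
  constructor
  unfold PZ
  rw [Measure.smul_apply, Measure.finset_sum_apply]
  simp only [measure_univ, Finset.sum_const, Nat.card_Icc, Nat.add_sub_cancel, smul_eq_mul,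
    nsmul_eq_mul, mul_one]
  exact ENNReal.inv_mul_cancel (by simp) (by simp)

lemma F_PZ (N : ℕ) (I : Finset ℕ) (s : ℕ → ℝ) : F (PZ N) I s = ((N + 1 : ℕ) : ℝ)⁻¹ *
    (by classical exact ((Finset.Icc 1 (N + 1)).filter fun n => ∀ i ∈ I, dp (n + i) ≤ s i).card : ℕ) := by
  classical
  rw [F_int, PZ_int]
  congr 1
  rw [Finset.card_filter]
  push_cast
  refine Finset.sum_congr rfl fun n _ => ?_
  by_cases h : ∀ i ∈ I, dp (n + i) ≤ s i
  · rw [if_pos h, indicator_of_mem (by exact h)]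
  · rw [if_neg h, indicator_of_notMem (by exact h)]

/-- moments of a single gap -/
lemma dp_mom (hRH : RHs) (i q : ℕ) : ∃ C : ℝ, 0 < C ∧ ∀ N : ℕ,
    ∑ n ∈ Finset.Icc 1 (N + 1), dp (n + i) ^ q ≤ C * (N + 1 : ℕ) := by
  obtain ⟨C, hC, h⟩ := g_mom hRH q
  refine ⟨C * (1 + i), by positivity, fun N => ?_⟩
  have h1 := h (N + 1 + i)
  have e : ∀ n, dp n ^ q ≤ (|dlt n| + |Pool.Agent.R320.CL.dl n|) ^ q := by
    intro n
    apply pow_le_pow_left₀ (dp_nonneg n)
    have := abs_nonneg (dlt n)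
    have := le_abs_self (dl n)
    have := abs_nonneg (dl n)
    exact max_le (by linarith) (by linarith)
  calc ∑ n ∈ Finset.Icc 1 (N + 1), dp (n + i) ^ q
      ≤ ∑ n ∈ Finset.Icc 1 (N + 1), (|dlt (n + i)| + |Pool.Agent.R320.CL.dl (n + i)|) ^ q :=
        Finset.sum_le_sum fun n _ => e _
    _ = ∑ n ∈ (Finset.Icc 1 (N + 1)).map (addRightEmbedding i),
          (|dlt n| + |Pool.Agent.R320.CL.dl n|) ^ q := by
        rw [Finset.sum_map]; rfl
    _ ≤ ∑ n ∈ Finset.Icc 1 (N + 1 + i), (|dlt n| + |Pool.Agent.R320.CL.dl n|) ^ q := by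
        apply Finset.sum_le_sum_of_subset_of_nonneg
        · intro m hm
          simp only [Finset.mem_map, Finset.mem_Icc, addRightEmbedding_apply] at hm ⊢
          obtain ⟨n, hn, rfl⟩ := hm
          omega
        · intro _ _ _; positivity
    _ ≤ C * (N + 1 + i : ℕ) := h1
    _ ≤ C * (1 + i) * (N + 1 : ℕ) := by
        push_cast
        have hN : (0 : ℝ) ≤ N := Nat.cast_nonneg N
        have hi : (0 : ℝ) ≤ i := Nat.cast_nonneg i
        rw [mul_assoc]
        apply mul_le_mul_of_nonneg_left _ hC.le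
        nlinarith

/-- products of gaps grow slowly -/
lemma prod_small (hRH : RHs) (I : Finset ℕ) :
    Tendsto (fun N : ℕ => ((N + 1 : ℕ) : ℝ)⁻¹ * ∏ i ∈ I, dp (N + 2 + i)) atTop (𝓝 0) := by
  obtain ⟨C, hC, h⟩ := g_mom hRH (2 * I.card)
  obtain ⟨B, hB⟩ : ∃ B : ℕ, B = I.sup id + 2 := ⟨_, rfl⟩
  have hpt : ∀ n, 1 ≤ n → dp n ^ (2 * I.card) ≤ C * n := by
    intro n hn
    refine le_trans ?_ (h n)
    have h1 : dp n ^ (2 * I.card) ≤ (|dlt n| + |Pool.Agent.R320.CL.dl n|) ^ (2 * I.card) := by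
      apply pow_le_pow_left₀ (dp_nonneg n)
      have := abs_nonneg (dlt n)
      have := le_abs_self (dl n)
      have := abs_nonneg (dl n)
      exact max_le (by linarith) (by linarith)
    refine h1.trans ?_
    exact Finset.single_le_sum (f := fun n => (|dlt n| + |Pool.Agent.R320.CL.dl n|) ^ (2 * I.card))
      (fun _ _ => by positivity) (Finset.mem_Icc.2 ⟨hn, le_rfl⟩)
  have hsq : ∀ N : ℕ, (∏ i ∈ I, dp (N + 2 + i)) ^ 2 ≤ 1 + C * (N + B : ℕ) := by
    intro N
    rcases I.eq_empty_or_nonempty with rfl | hne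
    · simp only [Finset.prod_empty, one_pow]
      have : 0 ≤ C * (N + B : ℕ) := by positivity
      linarith
    · obtain ⟨i0, hi0, hmax⟩ := Finset.exists_max_image I (fun i => dp (N + 2 + i)) hne
      have h1 : ∏ i ∈ I, dp (N + 2 + i) ≤ dp (N + 2 + i0) ^ I.card := by
        refine (Finset.prod_le_prod (fun i _ => dp_nonneg _) hmax).trans (le_of_eq ?_)
        rw [Finset.prod_const]
      have h2 : (∏ i ∈ I, dp (N + 2 + i)) ^ 2 ≤ (dp (N + 2 + i0) ^ I.card) ^ 2 :=
        pow_le_pow_left₀ (Finset.prod_nonneg fun _ _ => dp_nonneg _) h1 2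
      refine h2.trans ?_
      rw [← pow_mul, mul_comm I.card 2]
      refine (hpt _ (by omega)).trans ?_
      have h3 : N + 2 + i0 ≤ N + B := by
        have : i0 ≤ I.sup id := Finset.le_sup (f := id) hi0
        omega
      have h4 : C * ((N + 2 + i0 : ℕ) : ℝ) ≤ C * (N + B : ℕ) := by
        apply mul_le_mul_of_nonneg_left _ hC.le
        exact_mod_cast h3
      linarith
  -- squeeze
  have hlim : Tendsto (fun N : ℕ => Real.sqrt ((1 + C * (1 + B)) * ((N + 1 : ℕ) : ℝ)⁻¹)) atTop (𝓝 0) := by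
    have h1 : Tendsto (fun N : ℕ => ((N + 1 : ℕ) : ℝ)⁻¹) atTop (𝓝 0) :=
      (tendsto_inv_atTop_zero.comp tendsto_natCast_atTop_atTop).comp (tendsto_add_atTop_nat 1)
    have h2 := (h1.const_mul (1 + C * (1 + B))).sqrt
    simpa using h2
  refine squeeze_zero (fun N => mul_nonneg (by positivity)
    (Finset.prod_nonneg fun _ _ => dp_nonneg _)) (fun N => ?_) hlim
  apply Real.le_sqrt_of_sq_le
  rw [mul_pow]
  have hN : (0 : ℝ) < ((N + 1 : ℕ) : ℝ) := by positivity
  have h5 : 1 + C * ((N + B : ℕ) : ℝ) ≤ (1 + C * (1 + B)) * ((N + 1 : ℕ) : ℝ) := by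
    push_cast
    have hN : (0 : ℝ) ≤ N := Nat.cast_nonneg N
    have hBr : (0 : ℝ) ≤ B := Nat.cast_nonneg B
    nlinarith [mul_nonneg hC.le hN, mul_nonneg hC.le hBr, mul_nonneg (mul_nonneg hC.le hN) hBr]
  calc (((N + 1 : ℕ) : ℝ)⁻¹) ^ 2 * (∏ i ∈ I, dp (N + 2 + i)) ^ 2
      ≤ (((N + 1 : ℕ) : ℝ)⁻¹) ^ 2 * ((1 + C * (1 + B)) * ((N + 1 : ℕ) : ℝ)) := by
        apply mul_le_mul_of_nonneg_left _ (by positivity)
        exact (hsq N).trans h5
    _ = _ := by field_simp

/-- block moments -/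
lemma blk_mom (hRH : RHs) (k : ℕ) : ∃ C : ℝ, ∃ m₀ : ℕ, 2 ≤ m₀ ∧ ∀ m : ℕ, m₀ ≤ m → ∀ᶠ N : ℕ in atTop,
    ((N + 1 : ℕ) : ℝ)⁻¹ * ∑ n ∈ Finset.Icc 1 (N + 1), |∑ i ∈ Finset.range m, (dp (n + i) - 1)| ^ k
      ≤ C * (1 + Real.log m) ^ k := by
  obtain ⟨C, hC⟩ := mom2 hRH (fun _ : Fin 1 => (1 : ℝ)) k
  obtain ⟨r₀, hr₀⟩ := eventually_atTop.1 hC
  obtain ⟨n0, hn01, hn0⟩ := dp_eq
  obtain ⟨G, hG⟩ : ∃ G : ℝ, G = ∑ n ∈ Finset.range n0, |dp n - dl n| := ⟨_, rfl⟩
  have hG0 : 0 ≤ G := by rw [hG]; exact Finset.sum_nonneg fun _ _ => abs_nonneg _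
  refine ⟨2 ^ k * (|C| + G ^ k), max r₀ 2, le_max_right _ _, fun m hm => ?_⟩
  have hm2 : 2 ≤ m := (le_max_right _ _).trans hm
  have hlogm : 0 ≤ Real.log m := Real.log_nonneg (by exact_mod_cast (by omega : 1 ≤ m))
  have hlogN : ∀ᶠ N : ℕ in atTop, (m : ℝ) * Real.log m ≤ Real.log ((N + 1 : ℕ) : ℝ) :=
    ((Real.tendsto_log_atTop.comp tendsto_natCast_atTop_atTop).comp
      (tendsto_add_atTop_nat 1)).eventually_ge_atTop _
  filter_upwards [hlogN] with N hN
  have h1 := hr₀ m ((le_max_left _ _).trans hm) (N + 1) (by omega) hN (fun _ => m)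
    (fun _ => ⟨by omega, le_rfl⟩)
  have hlm : 0 ≤ lm m := by unfold Pool.Agent.Y743.CL.lm; positivity
  have hlm0 : 0 < lm m := by
    unfold Pool.Agent.Y743.CL.lm
    have : 0 < Real.log m := Real.log_pos (by exact_mod_cast (by omega : 1 < m))
    positivity
  have hlm1 : lm m ≤ 1 + Real.log m := by
    unfold Pool.Agent.Y743.CL.lm
    have h3 : Real.sqrt (Real.log m) ≤ 1 + Real.log m := by
      rw [Real.sqrt_le_left (by linarith)]
      nlinarith
    refine le_trans ?_ h3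
    exact div_le_self (Real.sqrt_nonneg _) (by linarith [Real.pi_gt_three])
  have hfn : ∀ n, fn (fun _ : Fin 1 => (1 : ℝ)) m (fun _ => m) n * lm m = SS m n - m := by
    intro n
    unfold fn
    simp only [Finset.univ_unique, Fin.default_eq_zero, Fin.isValue, one_mul, Finset.sum_const,
      Finset.card_singleton, one_smul]
    rw [div_mul_cancel₀ _ hlm0.ne']
  have hdiff : ∀ n, |∑ i ∈ Finset.range m, (dp (n + i) - 1)| ≤ |SS m n - m| + G := by
    intro n
    have e1 : ∑ i ∈ Finset.range m, (dp (n + i) - 1) =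
        (SS m n - m) + ∑ i ∈ Finset.range m, (dp (n + i) - dl (n + i)) := by
      unfold SS
      rw [Finset.sum_sub_distrib, Finset.sum_sub_distrib]
      simp
    have e2 : |∑ i ∈ Finset.range m, (dp (n + i) - dl (n + i))| ≤ G := by
      refine (Finset.abs_sum_le_sum_abs _ _).trans ?_
      rw [hG]
      calc ∑ i ∈ Finset.range m, |dp (n + i) - dl (n + i)|
          = ∑ l ∈ (Finset.range m).map (addLeftEmbedding n), |dp l - dl l| := by
            rw [Finset.sum_map]; rfl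
        _ = ∑ l ∈ ((Finset.range m).map (addLeftEmbedding n)).filter (· < n0), |dp l - dl l| := by
            symm
            apply Finset.sum_filter_of_ne
            intro l _ hl
            by_contra hcon
            apply hl
            rw [hn0 l (by omega)]
            simp
        _ ≤ ∑ l ∈ Finset.range n0, |dp l - dl l| := by
            apply Finset.sum_le_sum_of_subset_of_nonneg
            · intro l hl
              rw [Finset.mem_filter] at hl
              exact Finset.mem_range.2 hl.2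
            · intro _ _ _; exact abs_nonneg _
    rw [e1]
    exact (abs_add_le _ _).trans (by linarith)
  have hpt : ∀ n ∈ Finset.Icc 1 (N + 1), |∑ i ∈ Finset.range m, (dp (n + i) - 1)| ^ k ≤
      2 ^ k * ((1 + Real.log m) ^ k * (1 + |fn (fun _ : Fin 1 => (1 : ℝ)) m (fun _ => m) n|) ^ (k + 1)
        + G ^ k) := by
    intro n _
    refine (pow_le_pow_left₀ (abs_nonneg _) (hdiff n) k).trans ?_
    refine (add_pow_le2 (abs_nonneg _) hG0 k).trans ?_
    apply mul_le_mul_of_nonneg_left _ (by positivity)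
    have e3 : |SS m n - m| ^ k ≤
        (1 + Real.log m) ^ k * (1 + |fn (fun _ : Fin 1 => (1 : ℝ)) m (fun _ => m) n|) ^ (k + 1) := by
      rw [← hfn n, abs_mul, abs_of_pos hlm0, mul_pow, mul_comm]
      apply mul_le_mul (pow_le_pow_left₀ hlm hlm1 k) _ (by positivity) (by positivity)
      refine (pow_le_pow_left₀ (abs_nonneg _)
        (show |fn (fun _ : Fin 1 => (1 : ℝ)) m (fun _ => m) n| ≤
          1 + |fn (fun _ : Fin 1 => (1 : ℝ)) m (fun _ => m) n| by linarith) k).trans ?_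
      exact pow_le_pow_right₀ (by linarith [abs_nonneg (fn (fun _ : Fin 1 => (1 : ℝ)) m (fun _ => m) n)])
        (Nat.le_succ k)
    linarith
  have hN0 : (0 : ℝ) < ((N + 1 : ℕ) : ℝ) := by positivity
  rw [inv_mul_le_iff₀ hN0]
  refine (Finset.sum_le_sum hpt).trans ?_
  rw [← Finset.mul_sum, Finset.sum_add_distrib, ← Finset.mul_sum, Finset.sum_const, Nat.card_Icc,
    Nat.add_sub_cancel, nsmul_eq_mul]
  have h6 : (1 + Real.log m) ^ k * ∑ n ∈ Finset.Icc 1 (N + 1),
      (1 + |fn (fun _ : Fin 1 => (1 : ℝ)) m (fun _ => m) n|) ^ (k + 1) ≤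
      (1 + Real.log m) ^ k * (|C| * ((N + 1 : ℕ) : ℝ)) := by
    apply mul_le_mul_of_nonneg_left _ (by positivity)
    refine h1.trans ?_
    exact mul_le_mul_of_nonneg_right (le_abs_self C) hN0.le
  have h7 : ((N + 1 : ℕ) : ℝ) * G ^ k ≤ (1 + Real.log m) ^ k * (G ^ k * ((N + 1 : ℕ) : ℝ)) := by
    have h8 : (1 : ℝ) ≤ (1 + Real.log m) ^ k := one_le_pow₀ (by linarith)
    have h9 : 0 ≤ G ^ k * ((N + 1 : ℕ) : ℝ) := by positivity
    nlinarith
  calc 2 ^ k * ((1 + Real.log m) ^ k * ∑ n ∈ Finset.Icc 1 (N + 1),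
        (1 + |fn (fun _ : Fin 1 => (1 : ℝ)) m (fun _ => m) n|) ^ (k + 1) + ((N + 1 : ℕ) : ℝ) * G ^ k)
      ≤ 2 ^ k * ((1 + Real.log m) ^ k * (|C| * ((N + 1 : ℕ) : ℝ)) +
        (1 + Real.log m) ^ k * (G ^ k * ((N + 1 : ℕ) : ℝ))) := by
        apply mul_le_mul_of_nonneg_left _ (by positivity)
        linarith
    _ = _ := by ring

/-- **the laws of the gap sequences of the zeros form a good family** -/
theorem good_PZ (hRH : RHs) : Good atTop PZ where
  prob := fun j => PZ_prob j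
  nn := fun j i => by
    unfold PZ
    apply Measure.ae_smul_measure
    rw [ae_finsetSum_measure_iff]
    intro n _
    rw [ae_dirac_eq]
    exact dp_nonneg _
  int := fun j i k => PZ_integrable j _
  mom := fun i k => by
    obtain ⟨C, hC, h⟩ := dp_mom hRH i k
    refine ⟨C, Eventually.of_forall fun N => ?_⟩
    rw [PZ_int, inv_mul_le_iff₀ (by positivity)]
    rw [mul_comm]
    exact h N
  stat := fun I => by
    have e : (fun j => ∫ x, ∏ i ∈ I, x (i + 1) ∂(PZ j) - ∫ x, ∏ i ∈ I, x i ∂(PZ j)) =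
        fun N : ℕ => ((N + 1 : ℕ) : ℝ)⁻¹ * ∏ i ∈ I, dp (N + 2 + i) -
          ((N + 1 : ℕ) : ℝ)⁻¹ * ∏ i ∈ I, dp (1 + i) := by
      funext N
      rw [PZ_int, PZ_int, ← mul_sub, ← mul_sub]
      congr 1
      have e1 : ∀ n, ∏ i ∈ I, dp (n + (i + 1)) = ∏ i ∈ I, dp (n + 1 + i) := by
        intro n
        refine Finset.prod_congr rfl fun i _ => ?_
        rw [show n + (i + 1) = n + 1 + i by ring]
      simp_rw [e1]
      rw [← Finset.sum_sub_distrib, ← Finset.Ico_add_one_right_eq_Icc,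
        Finset.sum_Ico_sub (fun n => ∏ i ∈ I, dp (n + i)) (by omega : 1 ≤ N + 1 + 1)]
    rw [e]
    have h1 : Tendsto (fun N : ℕ => ((N + 1 : ℕ) : ℝ)⁻¹ * ∏ i ∈ I, dp (1 + i)) atTop (𝓝 0) := by
      have h2 : Tendsto (fun N : ℕ => ((N + 1 : ℕ) : ℝ)⁻¹) atTop (𝓝 0) :=
        (tendsto_inv_atTop_zero.comp tendsto_natCast_atTop_atTop).comp (tendsto_add_atTop_nat 1)
      simpa using h2.mul_const (∏ i ∈ I, dp (1 + i))
    simpa using (prod_small hRH I).sub h1
  blk := fun k ε hε => by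
    obtain ⟨C, m₀, hm₀, h⟩ := blk_mom hRH k
    obtain ⟨m₁, hm₁, h1⟩ := small_pow_log k C ε hε
    refine ⟨max m₀ m₁, fun m hm => ?_⟩
    filter_upwards [h m ((le_max_left _ _).trans hm)] with N hN
    rw [PZ_int]
    refine le_trans ?_ (hN.trans (h1 m ((le_max_right _ _).trans hm)))
    rw [abs_mul, abs_of_pos (by positivity : (0 : ℝ) < ((N + 1 : ℕ) : ℝ)⁻¹)]
    apply mul_le_mul_of_nonneg_left _ (by positivity)
    refine (Finset.abs_sum_le_sum_abs _ _).trans (le_of_eq ?_)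
    refine Finset.sum_congr rfl fun n _ => ?_
    rw [abs_pow]

end

end Pool.Agent.N805.JG.D
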