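import Pool.Agent.N805.JG.Stm

/-!
# Project JG (helper805): the abstract comparison theorem
-/

set_option autoImplicit false

open MeasureTheory Filter Topology

namespace Pool.Agent.N805.JG

variable {ι κ : Type} {L : Filter ι} {P Q : ι → Measure (ℕ → ℝ)}

lemma Good.comp {L' : Filter κ} (h : Good L P) {g : κ → ι} (hg : Tendsto g L' L) :
    Good L' (fun j => P (g j)) where
  prob := fun j => h.prob (g j)
  nn := fun j => h.nn (g j)
  int := fun j => h.int (g j)
  mom := fun i k => by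
    obtain ⟨C, hC⟩ := h.mom i k
    exact ⟨C, hg.eventually hC⟩
  stat := fun I => (h.stat I).comp hg
  blk := fun k ε hε => by
    obtain ⟨m₀, hm⟩ := h.blk k ε hε
    exact ⟨m₀, fun m hmm => hg.eventually (hm m hmm)⟩

lemma dom_le (hMARG : S_MARG) (hP : Good L P) (hQ : Good L Q) {r : ℕ} (hD : Dom L P Q r) :
    ∀ k : ℕ, k ≤ r → Dom L P Q k := by
  have h : ∀ d k : ℕ, k + d = r → Dom L P Q k := by
    intro d
    induction d with
    | zero => intro k hk; rw [add_zero] at hk; rw [hk]; exact hD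
    | succ d ih => intro k hk; exact hMARG hP hQ k (ih (k + 1) (by omega))
  intro k hk
  exact h (r - k) k (by omega)

lemma D_zero (hP : Good L P) (hQ : Good L Q) (I : Finset ℕ) (hI : I.Nonempty) (j : ι) :
    D P Q j (fun x => ∏ i ∈ I, max ((0 : ℝ) - x i) 0) = 0 := by
  obtain ⟨i, hi⟩ := hI
  have key : ∀ μ : Measure (ℕ → ℝ), (∀ᵐ x ∂μ, 0 ≤ x i) →
      ∫ x, ∏ i ∈ I, max ((0 : ℝ) - x i) 0 ∂μ = 0 := by
    intro μ h
    rw [integral_congr_ae (g := fun _ => (0 : ℝ)), integral_zero]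
    filter_upwards [h] with x hx
    exact Finset.prod_eq_zero hi (max_eq_right (by linarith))
  unfold D
  rw [key _ (hP.nn j i), key _ (hQ.nn j i), sub_zero]

lemma low_one (hP : Good L P) (hQ : Good L Q) : Low L P Q 1 := by
  intro I hI a
  have : I = ∅ := by
    rw [← Finset.card_eq_zero]; omega
  subst this
  have e : (fun j => D P Q j (fun x => ∏ i ∈ (∅ : Finset ℕ), x i ^ a i)) = fun _ => 0 := by
    funext j
    have := hP.prob j
    have := hQ.prob j
    unfold D
    simp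
  rw [e]
  exact tendsto_const_nhds

/-- the core: comparison implies asymptotic equality of the expectations of `∏ (T - x)⁺` -/
lemma core (hINT : S_INT) (hORD : S_ORD) (hSIGN : S_SIGN) (hSUM : S_SUM) (hBACK : S_BACK)
    (hP : Good L P) (hQ : Good L Q) {k : ℕ} (hk : 1 ≤ k) (hD : Dom L P Q k) (hlow : Low L P Q k) :
    ∀ I : Finset ℕ, I.card = k → ∀ T : ℕ → ℝ, (∀ i, 0 ≤ T i) →
      Tendsto (fun j => D P Q j (fun x => ∏ i ∈ I, max (T i - x i) 0)) L (𝓝 0) := by
  have hord : ∀ I : Finset ℕ, I.card = k → ∀ T T' : ℕ → ℝ, (∀ i, 0 ≤ T i ∧ T i ≤ T' i) →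
      ∀ ε : ℝ, 0 < ε → ∀ᶠ j in L,
      D P Q j (fun x => ∏ i ∈ I, max (T' i - x i) 0) -
        D P Q j (fun x => ∏ i ∈ I, max (T i - x i) 0) ≤ ε :=
    fun I hI => hORD hP hQ I (hD I hI)
  have hup : ∀ I : Finset ℕ, I.card = k → ∀ T : ℕ → ℝ, (∀ i, 0 ≤ T i) → ∀ ε : ℝ, 0 < ε →
      ∀ᶠ j in L, D P Q j (fun x => ∏ i ∈ I, max (T i - x i) 0) ≤ ε := by
    intro I hI T hT ε hε
    have hne : I.Nonempty := by rw [← Finset.card_pos]; omega
    filter_upwards [hord I hI (fun _ => 0) T (fun i => ⟨le_rfl, hT i⟩) ε hε] with j hj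
    rwa [D_zero hP hQ I hne j, sub_zero] at hj
  have hsign : ∀ I : Finset ℕ, I.card = k → ∀ ε : ℝ, 0 < ε → ∀ᶠ j in L,
      (-1) ^ k * D P Q j (fun x => ∏ i ∈ I, x i) ≤ ε :=
    fun I hI => hSIGN hINT hP hQ k hk hlow I hI (hup I hI)
  intro I hI
  exact hBACK hINT hP hQ k hk hlow I hI (hord I hI) (hSUM hINT hP hQ k hk hlow hsign I hI)

lemma low_all (hINT : S_INT) (hORD : S_ORD) (hDENS : S_DENS) (hPROD : S_PROD)
    (hSIGN : S_SIGN) (hSUM : S_SUM) (hBACK : S_BACK)
    (hP : Good L P) (hQ : Good L Q) {r : ℕ} (hD : ∀ k ≤ r, Dom L P Q k) :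
    ∀ k : ℕ, 1 ≤ k → k ≤ r + 1 → Low L P Q k := by
  intro k hk
  induction k, hk using Nat.le_induction with
  | base => intro _; exact low_one hP hQ
  | succ k hk ih =>
    intro hkr
    have hlow := ih (by omega)
    have hc := core hINT hORD hSIGN hSUM hBACK hP hQ hk (hD k (by omega)) hlow
    intro I hI a
    rcases Nat.lt_or_ge I.card k with h | h
    · exact hlow I h a
    · have hIk : I.card = k := by omega
      have h1 := hPROD hDENS hINT hP hQ I (hc I hIk)
        (fun i x => x ^ (if i ∈ I then a i else 0)) 1 (∑ i ∈ I, a i)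
        (fun i => by fun_prop) (fun i x hx => by
          rw [one_mul, abs_of_nonneg (pow_nonneg hx _)]
          refine (pow_le_pow_left₀ hx (show x ≤ 1 + x by linarith) _).trans ?_
          refine pow_le_pow_right₀ (by linarith) ?_
          split_ifs with hi
          · exact Finset.single_le_sum (f := a) (fun _ _ => Nat.zero_le _) hi
          · exact Nat.zero_le _)
      refine h1.congr fun j => ?_
      congr 1
      funext x
      refine Finset.prod_congr rfl fun i hi => ?_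
      rw [if_pos hi]

/-- **the comparison theorem** -/
theorem comparison (hINT : S_INT) (hORD : S_ORD) (hMARG : S_MARG) (hDENS : S_DENS) (hPROD : S_PROD)
    (hSIGN : S_SIGN) (hSUM : S_SUM) (hBACK : S_BACK) (hSYM : S_SYM)
    (hP : Good L P) (hQ : Good L Q) {r : ℕ} (hD : Dom L P Q r) :
    ∀ I : Finset ℕ, I.card ≤ r → ∀ (s : ℕ → ℝ) (h ε : ℝ), 0 < h → 0 < ε →
      ∀ᶠ j in L, F (Q j) I s ≤ F (P j) I (fun i => s i + h) + ε := by
  have hDk := dom_le hMARG hP hQ hD
  have hl := low_all hINT hORD hDENS hPROD hSIGN hSUM hBACK hP hQ hDk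
  intro I hI s h ε hh hε
  rcases Nat.eq_zero_or_pos I.card with h0 | h0
  · rw [Finset.card_eq_zero] at h0
    subst h0
    refine Eventually.of_forall fun j => ?_
    have := hP.prob j
    have := hQ.prob j
    unfold F
    simp
    exact hε.le
  · exact hSYM hP hQ I (core hINT hORD hSIGN hSUM hBACK hP hQ h0 (hDk _ hI) (hl _ h0 (by omega)) I rfl)
      s h ε hh hε

end Pool.Agent.N805.JG
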